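import Mathlib

/-! Averages over compact abelian groups, and the Ginibre cone. -/

open MeasureTheory Set

namespace Pool.Agent.MP_b591f0_mp

section Haar

variable {G H : Type*} [AddCommGroup G] [TopologicalSpace G] [IsTopologicalAddGroup G]
  [CompactSpace G] [T2Space G] [SecondCountableTopology G] [MeasurableSpace G] [BorelSpace G]
  [AddCommGroup H] [TopologicalSpace H] [IsTopologicalAddGroup H]
  [CompactSpace H] [T2Space H] [SecondCountableTopology H] [MeasurableSpace H] [BorelSpace H]

variable (G) in
/-- Haar probability measure. -/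
noncomputable def hp : Measure G := Measure.addHaarMeasure ⊤

instance : (hp G).IsAddHaarMeasure := by unfold hp; infer_instance

instance : IsProbabilityMeasure (hp G) :=
  ⟨by simpa [hp] using Measure.addHaarMeasure_self (G := G) (K₀ := ⊤)⟩

/-- Haar average. -/
noncomputable def av (F : G → ℝ) : ℝ := ∫ x, F x ∂(hp G)

omit [AddCommGroup G] [IsTopologicalAddGroup G] [T2Space G] [SecondCountableTopology G] in
lemma cint {F : G → ℝ} (hF : Continuous F) (μ : Measure G) [IsFiniteMeasure μ] :
    Integrable F μ :=
  hF.integrable_of_hasCompactSupport (HasCompactSupport.of_compactSpace F)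

lemma hp_hom (φ : G →+ H) (hc : Continuous φ) (hs : Function.Surjective φ) :
    MeasurePreserving φ (hp G) (hp H) :=
  AddMonoidHom.measurePreserving hc hs (by simp)

lemma av_mp {T : G → H} (hT : MeasurePreserving T (hp G) (hp H)) {F : H → ℝ}
    (hF : Continuous F) : av (fun x => F (T x)) = av F := by
  unfold av
  rw [← hT.map_eq, integral_map hT.measurable.aemeasurable hF.aestronglyMeasurable]

lemma av_hom (φ : G →+ H) (hc : Continuous φ) (hs : Function.Surjective φ) {F : H → ℝ}
    (hF : Continuous F) : av (fun x => F (φ x)) = av F :=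
  av_mp (hp_hom φ hc hs) hF

lemma av_shift (a : G) (F : G → ℝ) : av (fun x => F (x + a)) = av F :=
  integral_add_right_eq_self F a

lemma av_add {F K : G → ℝ} (hF : Continuous F) (hK : Continuous K) :
    av (fun x => F x + K x) = av F + av K := integral_add (cint hF _) (cint hK _)

lemma av_sub {F K : G → ℝ} (hF : Continuous F) (hK : Continuous K) :
    av (fun x => F x - K x) = av F - av K := integral_sub (cint hF _) (cint hK _)

lemma av_mul (c : ℝ) (F : G → ℝ) : av (fun x => c * F x) = c * av F := integral_const_mul c F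

lemma av_const (c : ℝ) : av (fun _ : G => c) = c := by simp [av]

lemma av_sum {ι : Type*} (s : Finset ι) {F : ι → G → ℝ} (hF : ∀ i ∈ s, Continuous (F i)) :
    av (fun x => ∑ i ∈ s, F i x) = ∑ i ∈ s, av (F i) :=
  integral_finsetSum s fun i hi => cint (hF i hi) _

lemma av_mono {F K : G → ℝ} (hF : Continuous F) (hK : Continuous K) (h : ∀ x, F x ≤ K x) :
    av F ≤ av K := integral_mono (cint hF _) (cint hK _) h

lemma av_nonneg {F : G → ℝ} (h : ∀ x, 0 ≤ F x) : 0 ≤ av F := integral_nonneg h

lemma av_pos {F : G → ℝ} (hF : Continuous F) (h : ∀ x, 0 < F x) : 0 < av F := by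
  obtain ⟨x, -, hx⟩ := isCompact_univ.exists_isMinOn univ_nonempty hF.continuousOn
  have := av_mono continuous_const hF (fun y => hx (mem_univ y))
  rw [av_const] at this
  exact (h x).trans_le this

lemma hp_prod : hp (G × H) = (hp G).prod (hp H) := by
  have := AddMonoidHom.measurePreserving (μ := hp (G × H)) (ν := (hp G).prod (hp H))
    (f := AddMonoidHom.id (G × H)) continuous_id Function.surjective_id (by simp)
  simpa using this.map_eq

lemma av_prod {F : G × H → ℝ} (hF : Continuous F) :
    av F = av fun x => av fun y => F (x, y) := by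
  unfold av
  rw [hp_prod, integral_prod _ (cint hF _)]

lemma av_prod_mul (F : G → ℝ) (K : H → ℝ) :
    av (fun z : G × H => F z.1 * K z.2) = av F * av K := by
  unfold av
  rw [hp_prod, integral_prod_mul]

lemma cont_av {X : Type*} [TopologicalSpace X] [FirstCountableTopology X] [LocallyCompactSpace X]
    {F : X → G → ℝ} (hF : Continuous F.uncurry) : Continuous fun x => av (F x) := by
  have := continuous_parametric_integral_of_continuous (μ := hp G) hF isCompact_univ
  simpa [av] using this

/-- Ginibre's cone of positive kernels. -/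
def Psd (K : G × G → ℝ) : Prop :=
  Continuous K ∧ ∀ φ : G → ℝ, Continuous φ → 0 ≤ av fun z : G × G => φ z.1 * φ z.2 * K z

lemma Psd.one : Psd (fun _ : G × G => (1 : ℝ)) :=
  ⟨continuous_const, fun φ _ => by
    simp only [mul_one]; rw [av_prod_mul]; exact mul_self_nonneg _⟩

lemma Psd.rank {K : G × G → ℝ} (hK : Psd K) {F : G → ℝ} (hF : Continuous F) :
    Psd fun z => F z.1 * F z.2 * K z :=
  ⟨by have := hK.1; fun_prop, fun φ hφ => by
    have := hK.2 (fun x => φ x * F x) (hφ.mul hF)
    convert this using 3; ring⟩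

lemma Psd.exp {K : G × G → ℝ} (hK : Psd K) {F : G → ℝ} (hF : Continuous F) {a : ℝ}
    (ha : 0 ≤ a) : Psd fun z => Real.exp (a * (F z.1 * F z.2)) * K z := by
  have hKc := hK.1
  refine ⟨by fun_prop, fun φ hφ => ?_⟩
  obtain ⟨C, hC⟩ := (isCompact_univ (X := G × G)).exists_bound_of_continuousOn
    (f := fun z => φ z.1 * φ z.2 * K z) (by fun_prop)
  obtain ⟨D, hD⟩ := (isCompact_univ (X := G × G)).exists_bound_of_continuousOn
    (f := fun z => a * (F z.1 * F z.2)) (by fun_prop)
  have hs : HasSum (fun n : ℕ => ∫ z, (a * (F z.1 * F z.2)) ^ n / n.factorial *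
        (φ z.1 * φ z.2 * K z) ∂(hp (G × G)))
      (∫ z, ∑' n : ℕ, (a * (F z.1 * F z.2)) ^ n / n.factorial * (φ z.1 * φ z.2 * K z)
        ∂(hp (G × G))) := by
    refine hasSum_integral_of_summable_integral_norm (fun n => cint (by fun_prop) _) ?_
    refine Summable.of_nonneg_of_le (fun n => integral_nonneg fun _ => norm_nonneg _)
      (fun n => ?_) ((Real.summable_pow_div_factorial D).mul_right C)
    refine (av_mono (G := G × G) (by fun_prop) continuous_const fun z => ?_).trans
      (av_const _).le
    rw [norm_mul, norm_div, norm_pow, Real.norm_natCast]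
    have := hD z (mem_univ _)
    have := hC z (mem_univ _)
    have : 0 ≤ D := (norm_nonneg _).trans (hD z (mem_univ _))
    gcongr
  have he : ∀ z : G × G, φ z.1 * φ z.2 * (Real.exp (a * (F z.1 * F z.2)) * K z) =
      ∑' n : ℕ, (a * (F z.1 * F z.2)) ^ n / n.factorial * (φ z.1 * φ z.2 * K z) := fun z => by
    rw [tsum_mul_right, Real.exp_eq_exp_ℝ, NormedSpace.exp_eq_tsum_div]; ring
  simp only [he]
  refine hs.nonneg fun n => ?_
  have := (hK.rank (F := fun x => F x ^ n) (by fun_prop)).2 φ hφ
  have h2 := mul_nonneg (div_nonneg (pow_nonneg ha n) (Nat.cast_nonneg n.factorial)) this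
  rw [← av_mul] at h2
  convert h2 using 1
  unfold av
  congr 1; ext z; rw [mul_pow, mul_pow]; ring

lemma Psd.exp_sum {ι : Type*} (s : Finset ι) {K : G × G → ℝ} (hK : Psd K) {F : ι → G → ℝ}
    (hF : ∀ i, Continuous (F i)) {a : ι → ℝ} (ha : ∀ i ∈ s, 0 ≤ a i) :
    Psd fun z => Real.exp (∑ i ∈ s, a i * (F i z.1 * F i z.2)) * K z := by
  classical
  induction s using Finset.induction_on with
  | empty => simpa using hK
  | insert i s hi ih =>
    have := (ih fun j hj => ha j (Finset.mem_insert_of_mem hj)).exp (hF i)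
      (ha i (Finset.mem_insert_self _ _))
    simpa only [Finset.sum_insert hi, Real.exp_add, mul_assoc] using this

/-- tangent-line form of Jensen's inequality -/
lemma exp_tan (a y : ℝ) : Real.exp a * (1 + (y - a)) ≤ Real.exp y := by
  have := Real.add_one_le_exp (y - a)
  calc _ ≤ Real.exp a * Real.exp (y - a) := by gcongr; linarith
    _ = _ := by rw [← Real.exp_add]; ring_nf

end Haar

end Pool.Agent.MP_b591f0_mp
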