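import Mathlib

/-! Gibbs states of the plane rotator model on `ℤ²` (the DLR equations). -/

open MeasureTheory

namespace Pool.Agent.MP_b591f0_mp

/-- the configuration equal to `σ` on `Λ` and to `ω` outside -/
def patch (Λ : Finset (ℤ × ℤ)) (σ : Λ → ℝ) (ω : ℤ × ℤ → ℝ) : ℤ × ℤ → ℝ :=
  fun x => if h : x ∈ Λ then σ ⟨x, h⟩ else ω x

/-- Boltzmann weight of the nearest-neighbour bonds meeting `Λ` -/
noncomputable def weight (β : ℝ) (Λ : Finset (ℤ × ℤ)) (θ : ℤ × ℤ → ℝ) : ℝ :=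
  Real.exp (β * ∑ e ∈ ({((1 : ℤ), (0 : ℤ)), ((0 : ℤ), (1 : ℤ))} : Finset (ℤ × ℤ)),
    ∑ x ∈ Λ ∪ Λ.image (fun y => y - e), Real.cos (θ x - θ (x + e)))

/-- `μ` is a probability measure on angle configurations satisfying the DLR equations -/
def IsGibbs (β : ℝ) (μ : Measure (ℤ × ℤ → ℝ)) : Prop :=
  IsProbabilityMeasure μ ∧
    ∀ Λ : Finset (ℤ × ℤ), ∀ f : (ℤ × ℤ → ℝ) → ℝ, Measurable f → (∃ C : ℝ, ∀ ω, |f ω| ≤ C) →
      ∫ ω, f ω ∂μ =
        ∫ ω, (∫ σ : Λ → ℝ, f (patch Λ σ ω) * weight β Λ (patch Λ σ ω)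
            ∂(Measure.pi fun _ : Λ => (volume : Measure ℝ).restrict (Set.Icc 0 (2 * Real.pi)))) /
          (∫ σ : Λ → ℝ, weight β Λ (patch Λ σ ω)
            ∂(Measure.pi fun _ : Λ => (volume : Measure ℝ).restrict (Set.Icc 0 (2 * Real.pi))))
          ∂μ

end Pool.Agent.MP_b591f0_mp
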