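import Pool.Agent.MP_b591f0_mp.Good
import Pool.Agent.MP_b591f0_mp.Defs

/-! From real-valued angles to the torus. -/

open MeasureTheory Real Finset Filter Topology

namespace Pool.Agent.MP_b591f0_mp

/-- angles modulo `2π` -/
noncomputable def pm (ω : V → ℝ) : Ω := fun x => (ω x : A)

lemma cont_pm : Continuous pm := continuous_pi fun x => Angle.continuous_coe.comp (continuous_apply x)

/-- the reference measure on the spins in `Λ` -/
noncomputable abbrev ref (Λ : Finset V) : Measure (Λ → ℝ) :=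
  Measure.pi fun _ : Λ => (volume : Measure ℝ).restrict (Set.Icc 0 (2 * π))

lemma bridge (Λ : Finset V) : ∃ c : ℝ, 0 < c ∧ ∀ (F : Ω → ℝ), Measurable F → ∀ ω,
    ∫ σ, F (pm (patch Λ σ ω)) ∂(ref Λ) = c * nu Λ F (pm ω) := by
  have : Fact (0 < 2 * π) := ⟨two_pi_pos⟩
  let v : Measure A := (volume : Measure (AddCircle (2 * π)))
  have : v.IsAddHaarMeasure :=
    inferInstanceAs (Measure.IsAddHaarMeasure (volume : Measure (AddCircle (2 * π))))
  let m : Measure (Λ → A) := Measure.pi fun _ => v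
  have h1 : MeasurePreserving (fun x : ℝ => (x : A)) (volume.restrict (Set.Icc 0 (2 * π))) v := by
    have := AddCircle.measurePreserving_mk (2 * π) 0
    rw [zero_add, restrict_Ioc_eq_restrict_Icc] at this
    exact this
  have h2 : MeasurePreserving (fun (σ : Λ → ℝ) i => (σ i : A)) (ref Λ) m :=
    measurePreserving_pi _ _ fun _ => h1
  have m0 : m Set.univ ≠ 0 := (isOpen_univ.measure_pos m Set.univ_nonempty).ne'
  have m1 : m Set.univ ≠ ⊤ := measure_ne_top _ _
  have := Measure.IsAddHaarMeasure.smul (hp Ω) m0 m1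
  let r : Ω →+ (Λ → A) := { toFun := fun θ i => θ i, map_zero' := rfl, map_add' := fun _ _ => rfl }
  have h3 : MeasurePreserving r (m Set.univ • hp Ω) m :=
    AddMonoidHom.measurePreserving (continuous_pi fun i => continuous_apply _)
      (fun τ => ⟨fun x => if h : x ∈ Λ then τ ⟨x, h⟩ else 0, by ext i; simp [r]⟩) (by simp)
  refine ⟨(m Set.univ).toReal, ENNReal.toReal_pos m0 m1, fun F hF ω => ?_⟩
  let F' : (Λ → A) → ℝ := fun τ => F fun x => if h : x ∈ Λ then τ ⟨x, h⟩ else pm ω x
  have hF' : Measurable F' := hF.comp (measurable_pi_lambda _ fun x => by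
    split_ifs
    · exact measurable_pi_apply _
    · exact measurable_const)
  have e2 := integral_map (μ := ref Λ) h2.measurable.aemeasurable hF'.aestronglyMeasurable
  have e3 := integral_map (μ := m Set.univ • hp Ω) h3.measurable.aemeasurable
    hF'.aestronglyMeasurable
  rw [h2.map_eq] at e2
  rw [h3.map_eq, integral_smul_measure, e2] at e3
  convert e3 using 1
  · refine congrArg _ (funext fun σ => congrArg F (funext fun x => ?_))
    by_cases h : x ∈ Λ <;> simp [pm, patch, h]
  · rw [smul_eq_mul, nu, av]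
    have : (fun σ => F (pw Λ σ (pm ω))) = fun σ => F' (r σ) :=
      funext fun σ => congrArg F (funext fun x => by by_cases h : x ∈ Λ <;> simp [pw, r, h])
    rw [this]

lemma weight_eq (β : ℝ) (Λ : Finset V) (θ : V → ℝ) : weight β Λ θ = exp (Ham β Λ (pm θ)) := by
  rw [weight, Ham, ← mul_sum, sum_Ed]
  simp only [pm, ← Angle.coe_sub, Angle.cos_coe]

variable {β : ℝ} {μ : Measure (V → ℝ)}

lemma IsGibbs.eq (hμ : IsGibbs β μ) (Λ : Finset V) {f : (V → ℝ) → ℝ} (hf : Measurable f)
    (hb : ∃ C : ℝ, ∀ ω, |f ω| ≤ C) {F : Ω → ℝ} (hF : Measurable F)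
    (h : ∀ ω, ∀ᵐ σ ∂(ref Λ), f (patch Λ σ ω) = F (pm (patch Λ σ ω))) :
    ∫ ω, f ω ∂μ = ∫ ω, gam Λ (Ham β Λ) F (pm ω) ∂μ := by
  obtain ⟨c, c0, hc⟩ := bridge Λ
  have m : Measurable fun θ => exp (Ham β Λ θ) := (by fun_prop : Continuous _).measurable
  rw [hμ.2 Λ f hf hb]
  refine congrArg _ (funext fun ω => ?_)
  rw [gam, ← mul_div_mul_left (nu _ _ _) _ c0.ne',
    ← hc (fun θ => F θ * exp (Ham β Λ θ)) (hF.mul m), ← hc _ m]
  simp only [weight_eq]
  congr 1
  exact integral_congr_ae ((h ω).mono fun σ hσ => by simp only [hσ])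

lemma IsGibbs.dlr (hμ : IsGibbs β μ) : DLR β (μ.map pm) := by
  have := hμ.1
  refine ⟨Measure.isProbabilityMeasure_map cont_pm.measurable.aemeasurable, fun Λ f hf => ?_⟩
  obtain ⟨C, hC⟩ := (isCompact_univ (X := Ω)).exists_bound_of_continuousOn hf.continuousOn
  rw [integral_map cont_pm.measurable.aemeasurable hf.aestronglyMeasurable,
    integral_map cont_pm.measurable.aemeasurable
      (cont_gam Λ (cont_Ham β Λ) hf).aestronglyMeasurable]
  exact hμ.eq Λ (hf.comp cont_pm).measurable ⟨C, fun ω => hC _ (Set.mem_univ _)⟩ hf.measurable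
    fun _ => Eventually.of_forall fun _ => rfl

theorem local_obs (β : ℝ) {f : (V → ℝ) → ℝ} (hf : Measurable f) (hb : ∃ C : ℝ, ∀ ω, |f ω| ≤ C)
    (Δ : Finset V) (hΔ : DependsOn f Δ) : ∃ G : Ω → ℝ, Continuous G ∧ ∀ μ, IsGibbs β μ → ∀ x,
      ∫ ω, f (fun y => ω (y + x)) ∂μ = ex (μ.map pm) x G := by
  have : Fact (0 < 2 * π) := ⟨two_pi_pos⟩
  obtain ⟨C, hC⟩ := hb
  let rep : A → ℝ := fun a => (AddCircle.measurableEquivIoc (2 * π) 0 a : ℝ)
  have hrep : Measurable rep :=
    measurable_subtype_coe.comp (AddCircle.measurableEquivIoc (2 * π) 0).measurable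
  have rep_eq : ∀ t ∈ Set.Ioc 0 (2 * π), rep (t : A) = t := fun t ht =>
    congrArg Subtype.val (AddCircle.equivIoc_coe_eq (p := 2 * π) (a := 0) (by simpa using ht))
  let F : Ω → ℝ := fun θ => f fun y => rep (θ y)
  have hF : Measurable F :=
    hf.comp (measurable_pi_lambda _ fun y => hrep.comp (measurable_pi_apply y))
  have cG : Continuous (gam Δ (Ham β Δ) F) := by
    refine Continuous.div ?_ (cont_nu Δ (by fun_prop)) fun η => (nu_pos Δ η (cont_Ham β Δ)).ne'
    obtain ⟨D, hD⟩ := (isCompact_univ (X := Ω)).exists_bound_of_continuousOn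
      (f := fun θ => exp (Ham β Δ θ)) (by fun_prop)
    have e : ∀ σ η, F (pw Δ σ η) = F σ := fun σ η => hΔ fun y hy => by
      simp [pw, Finset.mem_coe.1 hy]
    unfold nu av
    simp only [e]
    refine continuous_of_dominated (bound := fun _ => C * D) (fun η => ?_) (fun η => ?_)
      (integrable_const _) (Eventually.of_forall fun σ => by fun_prop)
    · exact (hF.mul (by fun_prop : Continuous _).measurable).aestronglyMeasurable
    · refine Eventually.of_forall fun σ => ?_
      rw [norm_mul]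
      exact mul_le_mul (hC _) (hD _ (Set.mem_univ _)) (norm_nonneg _) ((abs_nonneg _).trans (hC 0))
  refine ⟨_, cG, fun μ hμ x => ?_⟩
  rw [ex, integral_map (f := fun θ => gam Δ (Ham β Δ) F (tr x θ)) cont_pm.measurable.aemeasurable
    (cG.comp (cont_tr x)).aestronglyMeasurable,
    hμ.eq (sh x Δ) (f := fun ω => f fun y => ω (y + x)) (hf.comp (measurable_pi_lambda _ fun y => measurable_pi_apply _))
      ⟨C, fun _ => hC _⟩ (F := fun θ => F (tr x θ)) (hF.comp (cont_tr x).measurable) fun ω => ?_]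
  · simp only [gam_tr β x Δ hF]
  · have : ∀ᵐ σ ∂(ref (sh x Δ)), ∀ i, σ i ∈ Set.Ioc 0 (2 * π) := by
      refine ae_all_iff.2 fun i => Measure.tendsto_eval_ae_ae.eventually ?_
      rw [← restrict_Ioc_eq_restrict_Icc]
      exact ae_restrict_mem measurableSet_Ioc
    refine this.mono fun σ hσ => hΔ fun y hy => ?_
    have : y + x ∈ sh x Δ := mem_sh.2 (by simpa using hy)
    simp only [tr, pm, patch, this, dif_pos]
    exact (rep_eq _ (hσ _)).symm

end Pool.Agent.MP_b591f0_mp
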