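import Mathlib

/-! Gibbs states of the plane rotator model on `ℤ²`, with spins in the circle `ℝ / 2πℤ`. -/

open MeasureTheory

namespace Pool.Agent.MP_b591f0_mp

/-- the configuration with angles `σ` modulo `2π` on `Λ` and equal to `η` outside -/
noncomputable def glue (Λ : Finset (ℤ × ℤ)) (σ : Λ → ℝ) (η : ℤ × ℤ → AddCircle (2 * Real.pi)) :
    ℤ × ℤ → AddCircle (2 * Real.pi) :=
  fun x => if h : x ∈ Λ then ((σ ⟨x, h⟩ : ℝ) : AddCircle (2 * Real.pi)) else η x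

/-- Boltzmann weight of the nearest-neighbour bonds meeting `Λ` -/
noncomputable def boltz (β : ℝ) (Λ : Finset (ℤ × ℤ)) (θ : ℤ × ℤ → AddCircle (2 * Real.pi)) : ℝ :=
  Real.exp (β * ∑ e ∈ ({((1 : ℤ), (0 : ℤ)), ((0 : ℤ), (1 : ℤ))} : Finset (ℤ × ℤ)),
    ∑ x ∈ Λ ∪ Λ.image (fun y => y - e), Real.Angle.cos (θ x - θ (x + e)))

/-- `ν` is a probability measure on circle-valued configurations satisfying the DLR equations -/
def IsGibbsState (β : ℝ) (ν : Measure (ℤ × ℤ → AddCircle (2 * Real.pi))) : Prop :=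
  IsProbabilityMeasure ν ∧
    ∀ Λ : Finset (ℤ × ℤ), ∀ f : (ℤ × ℤ → AddCircle (2 * Real.pi)) → ℝ, Measurable f →
      (∃ C : ℝ, ∀ θ, |f θ| ≤ C) →
      ∫ θ, f θ ∂ν =
        ∫ η, (∫ σ : Λ → ℝ, f (glue Λ σ η) * boltz β Λ (glue Λ σ η)
            ∂(Measure.pi fun _ : Λ => (volume : Measure ℝ).restrict (Set.Icc 0 (2 * Real.pi)))) /
          (∫ σ : Λ → ℝ, boltz β Λ (glue Λ σ η)
            ∂(Measure.pi fun _ : Λ => (volume : Measure ℝ).restrict (Set.Icc 0 (2 * Real.pi))))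
          ∂ν

end Pool.Agent.MP_b591f0_mp
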