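import Pool.Agent.MP_b591f0_mp.FK

/-! The two entropy inequalities: few arms, and the entropic cut. -/

open MeasureTheory Real Finset

namespace Pool.Agent.MP_b591f0_mp

open scoped Classical

/-- unnormalised weight of `|sin θ_x|` on the event that `x` is joined to `M` -/
noncomputable def rho (β : ℝ) (H : Ω → ℝ) (E : Finset (V × V)) (Q M : Finset V) (η : Ω) (x : V) :
    ℝ := ∑ ω ∈ E.powerset, nu Q (fun θ => (if rch ω M x then |(θ x).sin| else 0) * wt β H E ω θ) η

variable {β : ℝ} {H : Ω → ℝ} {E : Finset (V × V)} {Q M : Finset V}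

lemma cont_ite (p : Prop) (x : V) : Continuous fun θ : Ω => if p then |(θ x).sin| else 0 := by
  split_ifs <;> fun_prop

lemma ite_nn (p : Prop) (x : V) (θ : Ω) : 0 ≤ if p then |(θ x).sin| else 0 := by
  split_ifs <;> positivity

lemma rho_nonneg (η : Ω) (x : V) : 0 ≤ rho β H E Q M η x :=
  sum_nonneg fun _ _ => nu_nonneg _ _ fun θ => mul_nonneg (ite_nn _ _ _) (wt_nonneg θ)

lemma arms (hβ : 0 ≤ β) (hH : Continuous H) {D : Finset V} (hD : D ⊆ Q) (η : Ω)
    (hinv : ∀ U : V → Prop, (∀ x, U x → x ∈ D) → ∀ θ, H (fl U θ) = H θ) {h : ℝ} (hh : 0 ≤ h)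
    {F : Finset (V × V)} (hF : ∀ b ∈ E, b ∉ F → b.1 ∈ D ∧ b.2 ∈ D) (hM : ∀ x ∈ M, x ∉ D)
    (G : Ω → ℝ) (hG : G = fun θ => H θ + ∑ b ∈ E, β * ss b θ) :
    h * ∑ x ∈ D, rho β H E Q M η x ≤ (#F * (2 * β + 3) +
      h * ∑ x ∈ D, gam Q (fun θ => G θ + ∑ y ∈ D, h * (θ y).sin) (fun θ => (θ x).sin) η) *
        nu Q (fun θ => exp (G θ)) η := by
  have cG : Continuous G := by rw [hG]; fun_prop
  set Z := nu Q (fun θ => exp (G θ)) η with hZ
  have Zp : 0 < Z := nu_pos Q η cG
  set G' : Ω → ℝ := fun θ => G θ + ∑ y ∈ D, h * (θ y).sin with hG'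
  have cG' : Continuous G' := by fun_prop
  have Zp' := nu_pos Q η cG'
  have eZ : ∑ ω ∈ E.powerset, nu Q (wt β H E ω) η = Z := by
    simpa [hZ, hG] using sum_nu_wt (β := β) (E := E) Q η hH (f := fun _ => 1) continuous_const
  have cY : ∀ (ω : Finset (V × V)) (S : Finset V), Continuous fun θ : Ω =>
      ∑ x ∈ D, h * if rch ω S x then |(θ x).sin| else 0 := fun ω S =>
    continuous_finsetSum _ fun x _ => continuous_const.mul (cont_ite _ _)
  have j1 := jen Q η E.powerset (wt β H E)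
    (fun ω θ => ∑ x ∈ D, h * if rch ω M x then |(θ x).sin| else 0) (fun _ => cont_wt hH)
    (fun ω => cY ω M) (fun _ => wt_nonneg) ((h * ∑ x ∈ D, rho β H E Q M η x) / Z) (by
      rw [eZ, div_mul_cancel₀ _ Zp.ne']
      simp only [rho, sum_mul, mul_assoc]
      rw [sum_comm, mul_sum]
      refine (sum_congr rfl fun ω _ => ?_).le
      rw [nu_sum _ _ _ fun x _ => by have := cont_ite (rch ω M x) x; fun_prop, mul_sum]
      simp only [nu_mul])
  let S := (F.image Prod.fst ∪ F.image Prod.snd) ∩ D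
  have cS : #S ≤ 2 * #F := (card_le_card inter_subset_left).trans ((card_union_le _ _).trans (by
    have := card_image_le (s := F) (f := Prod.fst)
    have := card_image_le (s := F) (f := Prod.snd)
    omega))
  have j2 := closing E.powerset (E \ F).powerset F (fun ω => ω ∩ F)
    (fun ω hω => ⟨inter_subset_left, inter_subset_right, by
      rw [sdiff_inter_self_left]; exact mem_powerset.2 (sdiff_subset_sdiff (mem_powerset.1 hω) le_rfl)⟩)
    (fun ω => nu Q (fun θ => exp (∑ x ∈ D, h * if rch ω S x then |(θ x).sin| else 0) *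
      wt β H E ω θ) η)
    (fun ω => nu Q (fun θ => exp (∑ x ∈ D, h * if rch ω M x then |(θ x).sin| else 0) *
      wt β H E ω θ) η) (exp_pos (2 * β)).le
    (fun ω _ => nu_nonneg _ _ fun θ => mul_nonneg (exp_pos _).le (wt_nonneg θ)) (fun ω hω => by
      have := cY ω M
      have := cY (ω \ (ω ∩ F)) S
      rw [← nu_mul]
      refine nu_mono _ _ (by fun_prop) (by fun_prop) fun θ => ?_
      rw [mul_left_comm]
      refine mul_le_mul (exp_le_exp.2 (sum_le_sum fun x hx => mul_le_mul_of_nonneg_left ?_ hh))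
        (wt_close hβ (mem_powerset.1 hω) inter_subset_left θ) (wt_nonneg θ) (exp_pos _).le
      by_cases h1 : rch ω M x
      · rw [if_pos h1, if_pos]
        refine rch_ind (p := fun x => x ∈ D → rch (ω \ (ω ∩ F)) S x)
          (fun y hy hy' => absurd hy' (hM y hy)) (fun b hb => ?_) h1 hx
        by_cases hb' : b ∈ F
        · constructor <;> refine fun _ _ h2 => rch_self (mem_inter.2 ⟨?_, h2⟩)
          · exact mem_union_right _ (mem_image_of_mem _ hb')
          · exact mem_union_left _ (mem_image_of_mem _ hb')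
        · have h2 := hF b (mem_powerset.1 hω hb) hb'
          have h3 := rch_iff (ω := ω \ (ω ∩ F)) (S := S) (b := b) (by simp [hb, hb'])
          exact ⟨fun _ h4 _ => h3.1 (h4 h2.1), fun _ h4 _ => h3.2 (h4 h2.2)⟩
      · rw [if_neg h1]; exact ite_nn _ _ _)
  have j3 : ∑ ω ∈ (E \ F).powerset, nu Q (fun θ =>
      exp (∑ x ∈ D, h * if rch ω S x then |(θ x).sin| else 0) * wt β H E ω θ) η ≤
      2 ^ #S * nu Q (fun θ => exp (G' θ)) η := by
    refine (sum_le_sum fun ω hω => arm2 hβ hH hD η hinv h (fun b hb => ?_) S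
      inter_subset_right).trans ?_
    · have := mem_sdiff.1 (mem_powerset.1 hω hb)
      exact hF b this.1 this.2
    rw [← mul_sum]
    gcongr
    refine (sum_le_sum_of_subset_of_nonneg (powerset_mono.2 sdiff_subset) fun ω _ _ =>
      nu_nonneg _ _ fun θ => mul_nonneg (exp_pos _).le (wt_nonneg θ)).trans_eq ?_
    rw [sum_nu_wt Q η hH (by fun_prop)]
    simp only [hG', hG, ← exp_add, add_comm]
  set c := h * ∑ x ∈ D, gam Q G' (fun θ => (θ x).sin) η with hc
  have j4 := jen1 Q η (w := fun θ => exp (G' θ)) (Y := fun θ => -∑ y ∈ D, h * (θ y).sin)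
    (by fun_prop) (by fun_prop) (fun _ => (exp_pos _).le) (-c) (by
      have := gam_sum Q η D (f := fun x θ => -h * (θ x).sin) cG' fun _ _ => by fun_prop
      simp only [gam_mul] at this
      rw [← mul_sum, neg_mul, ← hc, gam, div_eq_iff Zp'.ne'] at this
      rw [← this]
      simp)
  have e4 : nu Q (fun θ => exp (-∑ y ∈ D, h * (θ y).sin) * exp (G' θ)) η = Z := by
    simp only [hG', ← exp_add, hZ]; congr 1; ext θ; congr 1; ring
  rw [e4, exp_neg, inv_mul_le_iff₀ (exp_pos c)] at j4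
  rw [eZ] at j1
  have j5 : (1 + exp (2 * β)) ^ #F * 2 ^ #S ≤ exp (#F * (2 * β + 3)) := by
    rw [exp_nat_mul]
    calc _ ≤ (1 + exp (2 * β)) ^ #F * 2 ^ (2 * #F) := by gcongr; norm_num
      _ = ((1 + exp (2 * β)) * 4) ^ #F := by rw [mul_pow, pow_mul]; norm_num
      _ ≤ _ := by
        gcongr
        have h1 := one_le_exp (show 0 ≤ 2 * β by positivity)
        have h2 : (8 : ℝ) ≤ exp 3 := by
          have := add_one_le_exp (1 : ℝ)
          calc (8 : ℝ) = 2 ^ 3 := by norm_num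
            _ ≤ exp 1 ^ 3 := by gcongr; linarith
            _ = _ := by rw [← exp_nat_mul]; norm_num
        rw [exp_add]; nlinarith
  rw [← div_le_iff₀ Zp, ← exp_le_exp, ← mul_le_mul_iff_left₀ Zp, exp_add]
  refine j1.trans (j2.trans ?_)
  calc _ ≤ (1 + exp (2 * β)) ^ #F * (2 ^ #S * (exp c * Z)) := by
        gcongr; exact j3.trans (by gcongr)
    _ ≤ _ := by rw [← mul_assoc, mul_assoc (exp _)]; gcongr

lemma cut (hβ : 0 ≤ β) (hH : Continuous H) {U₀ : Finset V} (hM : M ⊆ U₀) (hU : U₀ ⊆ Q) (η : Ω)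
    {F : Finset (V × V)} (hF : ∀ b ∈ E, b ∉ F → (b.1 ∈ U₀ ↔ b.2 ∈ U₀)) {ι : Type*} (R : Finset ι)
    (e : ι → V × V) {t l a : ℝ} (ht : 0 ≤ t) (hl : 0 ≤ l)
    (ha : ∀ ω ⊆ E, ∀ U : Finset V, M ⊆ U → U ⊆ Q → (∀ b ∈ ω, (b.1 ∈ U ↔ b.2 ∈ U)) → ∀ i ∈ R,
      a * nu Q (wt β (fun θ => H θ - ∑ j ∈ R, t * ss (e j) θ) E ω) η ≤
        nu Q (fun θ => ss (e i) θ * wt β (fun θ => H θ - ∑ j ∈ R, t * ss (e j) θ) E ω θ) η)
    (G : Ω → ℝ) (hG : G = fun θ => H θ + ∑ b ∈ E, β * ss b θ) :
    t * ∑ i ∈ R, (a - gam Q G (ss (e i)) η) ≤ #F * (exp (-l) * exp (2 * β)) +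
      l * exp (2 * β) * (∑ b ∈ F, (rho β H E Q M η b.1 + rho β H E Q M η b.2)) /
        nu Q (fun θ => exp (G θ)) η := by
  have cG : Continuous G := by rw [hG]; fun_prop
  set Z := nu Q (fun θ => exp (G θ)) η with hZ
  have Zp : 0 < Z := nu_pos Q η cG
  set H' : Ω → ℝ := fun θ => H θ - ∑ j ∈ R, t * ss (e j) θ with hH'
  have cH' : Continuous H' := by fun_prop
  have eZ : ∑ ω ∈ E.powerset, nu Q (wt β H E ω) η = Z := by
    simpa [hZ, hG] using sum_nu_wt (β := β) (E := E) Q η hH (f := fun _ => 1) continuous_const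
  let Y : Finset (V × V) → Finset (V × V) := fun ω =>
    (ω ∩ F).filter fun b => rch (ω \ F) M b.1 ∨ rch (ω \ F) M b.2
  let N := E.powerset.filter fun ω => ∃ U : Finset V, M ⊆ U ∧ U ⊆ Q ∧ ∀ b ∈ ω, (b.1 ∈ U ↔ b.2 ∈ U)
  have hY : ∀ ω, Y ω ⊆ ω ∧ Y ω ⊆ F := fun ω =>
    ⟨(filter_subset _ _).trans inter_subset_left, (filter_subset _ _).trans inter_subset_right⟩
  have j2 := closing E.powerset N F Y (fun ω hω => ⟨(hY ω).1, (hY ω).2, mem_filter.2
      ⟨mem_powerset.2 (sdiff_subset.trans (mem_powerset.1 hω)), Q.filter (rch (ω \ F) M),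
        fun x hx => mem_filter.2 ⟨hU (hM hx), rch_self hx⟩, filter_subset _ _, fun b hb => by
          have h0 : ∀ x, x ∈ Q.filter (rch (ω \ F) M) ↔ rch (ω \ F) M x := fun x =>
            ⟨fun h => (mem_filter.1 h).2, fun h => mem_filter.2 ⟨hU (rch_ind (p := (· ∈ U₀)) hM
              (fun b hb => by
                have := hF b (mem_powerset.1 hω (mem_sdiff.1 hb).1) (mem_sdiff.1 hb).2
                exact ⟨fun _ => this.1, fun _ => this.2⟩) h), h⟩⟩
          rw [h0, h0]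
          by_cases hb' : b ∈ F
          · have := (mem_sdiff.1 hb).2
            simp only [Y, mem_filter, mem_inter, (mem_sdiff.1 hb).1, hb', true_and, not_or] at this
            simp [this]
          · exact rch_iff (mem_sdiff.2 ⟨(mem_sdiff.1 hb).1, hb'⟩)⟩⟩)
    (fun ω => nu Q (wt β H' E ω) η)
    (fun ω => nu Q (fun θ => exp (-(∑ j ∈ R, t * ss (e j) θ) - l * #(Y ω)) * wt β H E ω θ) η)
    (κ := exp (-l) * exp (2 * β)) (by positivity) (fun ω _ => nu_nonneg _ _ wt_nonneg)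
    (fun ω hω => by
      rw [← nu_mul]
      refine nu_mono _ _ (by fun_prop) (by fun_prop) fun θ => ?_
      have := wt_close (H := H') hβ (mem_powerset.1 hω) (hY ω).1 θ
      rw [mul_pow, mul_assoc]
      refine le_trans (le_of_eq ?_) (mul_le_mul_of_nonneg_left this (by positivity))
      simp only [wt, hH', ← mul_assoc, ← exp_nat_mul, ← exp_add]
      congr 3; ring)
  have j3 : exp (∑ i ∈ R, t * a) * ∑ ω ∈ N, nu Q (wt β H' E ω) η ≤ Z := by
    rw [← eZ, mul_sum]
    refine le_trans (sum_le_sum fun ω hω => ?_) (sum_le_sum_of_subset_of_nonneg (filter_subset _ _)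
      fun ω _ _ => nu_nonneg _ _ wt_nonneg)
    obtain ⟨h1, U, h2, h3, h4⟩ := mem_filter.1 hω
    refine (jen1 Q η (Y := fun θ => ∑ j ∈ R, t * ss (e j) θ) (cont_wt cH') (by fun_prop)
      wt_nonneg _ ?_).trans_eq ?_
    · simp only [sum_mul, mul_assoc]
      rw [nu_sum _ _ _ fun _ _ => by fun_prop]
      refine sum_le_sum fun i hi => ?_
      rw [nu_mul]
      exact mul_le_mul_of_nonneg_left (ha ω (mem_powerset.1 h1) U h2 h3 h4 i hi) ht
    · congr 1; ext θ
      simp only [wt, hH', ← mul_assoc, ← exp_add]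
      congr 3; ring
  have j4 : ∑ ω ∈ E.powerset, #(Y ω) * nu Q (wt β H E ω) η ≤
      exp (2 * β) * ∑ b ∈ F, (rho β H E Q M η b.1 + rho β H E Q M η b.2) := by
    have e1 : ∀ ω, #(Y ω) * nu Q (wt β H E ω) η =
        ∑ b ∈ F, if b ∈ Y ω then nu Q (wt β H E ω) η else 0 := fun ω => by
      rw [← sum_filter, filter_mem_eq_inter, inter_eq_right.2 (hY ω).2, sum_const, nsmul_eq_mul]
    simp only [e1]
    rw [sum_comm, mul_sum]
    refine sum_le_sum fun b hb => ?_
    let g : Finset (V × V) → ℝ := fun ω => exp (2 * β) *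
      (nu Q (fun θ => (if rch ω M b.1 then |(θ b.1).sin| else 0) * wt β H E ω θ) η +
        nu Q (fun θ => (if rch ω M b.2 then |(θ b.2).sin| else 0) * wt β H E ω θ) η)
    have g0 : ∀ ω, 0 ≤ g ω := fun ω => mul_nonneg (exp_pos _).le (add_nonneg
      (nu_nonneg _ _ fun θ => mul_nonneg (ite_nn _ _ _) (wt_nonneg θ))
      (nu_nonneg _ _ fun θ => mul_nonneg (ite_nn _ _ _) (wt_nonneg θ)))
    rw [← sum_filter, rho, rho, ← sum_add_distrib, mul_sum]
    calc _ ≤ ∑ ω ∈ E.powerset.filter (fun ω => b ∈ Y ω), g (ω.erase b) := sum_le_sum fun ω hω => ?_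
      _ = ∑ ω ∈ (E.powerset.filter (fun ω => b ∈ Y ω)).image (·.erase b), g ω :=
        (sum_image fun ω hω ω' hω' h => ?_).symm
      _ ≤ _ := sum_le_sum_of_subset_of_nonneg (fun ω hω => ?_) fun ω _ _ => g0 ω
    · obtain ⟨h1, h2⟩ := mem_filter.1 hω
      have c1 := cont_ite (rch (ω.erase b) M b.1) b.1
      have c2 := cont_ite (rch (ω.erase b) M b.2) b.2
      simp only [g]
      rw [← nu_add _ _ (by fun_prop) (by fun_prop), ← nu_mul]
      refine nu_mono _ _ (by fun_prop) (by fun_prop) fun θ => ?_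
      refine (wt_erase hβ (mem_powerset.1 h1) ((hY ω).1 h2) θ).trans ?_
      rw [← add_mul, ← mul_assoc]
      refine mul_le_mul_of_nonneg_right (mul_le_mul_of_nonneg_left ?_ (exp_pos _).le) (wt_nonneg θ)
      have hs : ω \ F ⊆ ω.erase b := fun c hc => mem_erase.2
        ⟨fun h => (mem_sdiff.1 hc).2 (h ▸ hb), (mem_sdiff.1 hc).1⟩
      rw [ss, abs_mul]
      rcases (mem_filter.1 h2).2 with h3 | h3
      · rw [if_pos (rch_mono hs h3)]
        exact le_add_of_le_of_nonneg (mul_le_of_le_one_right (abs_nonneg _) (abs_sin_le _))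
          (ite_nn _ _ _)
      · rw [if_pos (rch_mono hs h3)]
        exact le_add_of_nonneg_of_le (ite_nn _ _ _)
          (mul_le_of_le_one_left (abs_nonneg _) (abs_sin_le _))
    · have h1 := (hY ω).1 (mem_filter.1 hω).2
      have h2 := (hY ω').1 (mem_filter.1 hω').2
      rw [← insert_erase h1, ← insert_erase h2]
      exact congrArg _ h
    · obtain ⟨ω', h1, rfl⟩ := mem_image.1 hω
      exact mem_powerset.2 ((erase_subset _ _).trans (mem_powerset.1 (mem_filter.1 h1).1))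
  set r := ∑ b ∈ F, (rho β H E Q M η b.1 + rho β H E Q M η b.2)
  have j1 := jen Q η E.powerset (wt β H E)
    (fun ω θ => -(∑ j ∈ R, t * ss (e j) θ) - l * #(Y ω)) (fun _ => cont_wt hH)
    (fun ω => by fun_prop) (fun _ => wt_nonneg)
    (-(t * ∑ i ∈ R, gam Q G (ss (e i)) η) - l * exp (2 * β) * r / Z) (by
      have e1 : ∀ ω, nu Q (fun θ => (-(∑ j ∈ R, t * ss (e j) θ) - l * #(Y ω)) * wt β H E ω θ) η =
          nu Q (fun θ => (-(∑ j ∈ R, t * ss (e j) θ)) * wt β H E ω θ) η -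
            l * (#(Y ω) * nu Q (wt β H E ω) η) := fun ω => by
        rw [← nu_mul, ← nu_mul, ← nu_sub _ _ (by fun_prop) (by fun_prop)]
        congr 1; ext θ; ring
      simp only [e1]
      rw [sum_sub_distrib, ← mul_sum, sum_nu_wt Q η hH (by fun_prop), eZ, sub_mul,
        div_mul_cancel₀ _ Zp.ne']
      have e2 := gam_sum Q η R (f := fun i θ => -t * ss (e i) θ) cG fun _ _ => by fun_prop
      simp only [gam_mul] at e2
      rw [gam, div_eq_iff Zp.ne', ← mul_sum] at e2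
      simp only [neg_mul, sum_neg_distrib, hG] at e2
      simp only [neg_mul, hG, e2]
      have := mul_le_mul_of_nonneg_left j4 hl
      linarith)
  rw [eZ] at j1
  have j5 : (1 + exp (-l) * exp (2 * β)) ^ #F ≤ exp (#F * (exp (-l) * exp (2 * β))) := by
    rw [exp_nat_mul]
    gcongr
    linarith [add_one_le_exp (exp (-l) * exp (2 * β))]
  have j6 := j1.trans (j2.trans (mul_le_mul_of_nonneg_right j5
    (sum_nonneg fun ω _ => nu_nonneg _ _ wt_nonneg)))
  have j7 := (mul_le_mul_of_nonneg_left j6 (exp_pos (∑ i ∈ R, t * a)).le).trans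
    ((mul_left_comm _ _ _).trans_le (mul_le_mul_of_nonneg_left j3 (exp_pos _).le))
  rw [← mul_assoc, mul_le_mul_iff_left₀ Zp, ← exp_add, exp_le_exp, ← mul_sum] at j7
  rw [sum_sub_distrib]
  linarith

end Pool.Agent.MP_b591f0_mp
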