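import Pool.Agent.MP_b591f0_mp.Sign

/-! Random-cluster representation of the signs of the sines: arms are rare, and cutting them
is cheap. -/

open MeasureTheory Real Finset

namespace Pool.Agent.MP_b591f0_mp

open scoped Classical

lemma closing {α : Type*} [DecidableEq α] (P N : Finset (Finset α)) (F : Finset α)
    (X : Finset α → Finset α) (hX : ∀ ω ∈ P, X ω ⊆ ω ∧ X ω ⊆ F ∧ ω \ X ω ∈ N)
    (a b : Finset α → ℝ) {κ : ℝ} (hκ : 0 ≤ κ) (ha : ∀ ω ∈ N, 0 ≤ a ω)
    (h : ∀ ω ∈ P, b ω ≤ κ ^ #(X ω) * a (ω \ X ω)) :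
    ∑ ω ∈ P, b ω ≤ (1 + κ) ^ #F * ∑ ω ∈ N, a ω := by
  have e : (1 + κ) ^ #F = ∑ Y ∈ F.powerset, κ ^ #Y := by
    have := prod_one_add (s := F) (f := fun _ => κ)
    simpa using this
  rw [e, sum_mul_sum, ← sum_product']
  refine (sum_le_sum h).trans ?_
  have inj : Set.InjOn (fun ω => (X ω, ω \ X ω)) P := by
    intro ω hω ω' hω' e
    simp only [Prod.mk.injEq] at e
    rw [← sdiff_union_of_subset (hX ω hω).1, ← sdiff_union_of_subset (hX ω' hω').1, e.2, e.1]
  rw [← sum_image (f := fun y : Finset α × Finset α => κ ^ #y.1 * a y.2) inj]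
  refine sum_le_sum_of_subset_of_nonneg ?_ ?_
  · intro y hy
    obtain ⟨ω, hω, rfl⟩ := mem_image.1 hy
    exact mem_product.2 ⟨mem_powerset.2 (hX ω hω).2.1, (hX ω hω).2.2⟩
  · intro y hy _
    exact mul_nonneg (pow_nonneg hκ _) (ha _ (mem_product.1 hy).2)

lemma jen {ι : Type*} (Q : Finset V) (η : Ω) (s : Finset ι) (w Y : ι → Ω → ℝ)
    (hw : ∀ i, Continuous (w i)) (hY : ∀ i, Continuous (Y i)) (h0 : ∀ i θ, 0 ≤ w i θ) (a : ℝ)
    (h : a * ∑ i ∈ s, nu Q (w i) η ≤ ∑ i ∈ s, nu Q (fun θ => Y i θ * w i θ) η) :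
    exp a * ∑ i ∈ s, nu Q (w i) η ≤ ∑ i ∈ s, nu Q (fun θ => exp (Y i θ) * w i θ) η := by
  have : ∀ i ∈ s, exp a * ((1 - a) * nu Q (w i) η + nu Q (fun θ => Y i θ * w i θ) η) ≤
      nu Q (fun θ => exp (Y i θ) * w i θ) η := fun i _ => by
    have := hw i; have := hY i
    rw [← nu_mul, ← nu_add _ _ (by fun_prop) (by fun_prop), ← nu_mul]
    refine nu_mono _ _ (by fun_prop) (by fun_prop) fun θ => ?_
    have := mul_le_mul_of_nonneg_right (exp_tan a (Y i θ)) (h0 i θ)
    linarith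
  refine le_trans ?_ (sum_le_sum this)
  rw [← mul_sum, sum_add_distrib, ← mul_sum]
  have := exp_pos a
  gcongr; linarith

lemma jen1 (Q : Finset V) (η : Ω) {w Y : Ω → ℝ} (hw : Continuous w) (hY : Continuous Y)
    (h0 : ∀ θ, 0 ≤ w θ) (a : ℝ) (h : a * nu Q w η ≤ nu Q (fun θ => Y θ * w θ) η) :
    exp a * nu Q w η ≤ nu Q (fun θ => exp (Y θ) * w θ) η := by
  simpa using jen Q η ({()} : Finset Unit) (fun _ => w) (fun _ => Y) (fun _ => hw) (fun _ => hY)
    (fun _ => h0) a (by simpa using h)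

variable {β : ℝ}

lemma pp_le (hβ : 0 ≤ β) (b : V × V) (θ : Ω) : pp β b θ ≤ exp (2 * β) * |ss b θ| * qq β b θ := by
  have h1 := abs_ss_le b θ
  have h0 := abs_nonneg (ss b θ)
  have h := convexOn_exp.2 (Set.mem_univ 0) (Set.mem_univ (2 * β)) (sub_nonneg.2 h1) h0 (by ring)
  simp only [smul_eq_mul, mul_zero, zero_add, exp_zero, mul_one] at h
  have e : exp (β * ss b θ) ≤ exp (|ss b θ| * (2 * β)) * qq β b θ := by
    rw [qq, ← exp_add, abs_mul, abs_of_nonneg hβ]
    have := mul_le_mul_of_nonneg_left (le_abs_self (ss b θ)) hβ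
    gcongr; linarith
  have := qq_pos β b θ
  unfold pp; nlinarith

/-- joint weight of spins and open edges -/
noncomputable def wt (β : ℝ) (H : Ω → ℝ) (E ω : Finset (V × V)) (θ : Ω) : ℝ :=
  exp (H θ) * ((∏ b ∈ ω, pp β b θ) * ∏ b ∈ E \ ω, qq β b θ)

variable {H : Ω → ℝ} {E ω : Finset (V × V)}

@[fun_prop] lemma cont_wt (hH : Continuous H) : Continuous (wt β H E ω) := by unfold wt; fun_prop

lemma wt_nonneg (θ : Ω) : 0 ≤ wt β H E ω θ :=
  mul_nonneg (exp_pos _).le (mul_nonneg (prod_nonneg fun _ _ => pp_nonneg _ _ _)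
    (prod_nonneg fun _ _ => (qq_pos _ _ _).le))

lemma sum_wt (θ : Ω) : ∑ ω ∈ E.powerset, wt β H E ω θ = exp (H θ + ∑ b ∈ E, β * ss b θ) := by
  simp only [wt]
  rw [← mul_sum, ← prod_add]
  simp only [pp, sub_add_cancel, exp_add, exp_sum]

lemma sum_nu_wt (Q : Finset V) (η : Ω) (hH : Continuous H) {f : Ω → ℝ} (hf : Continuous f) :
    ∑ ω ∈ E.powerset, nu Q (fun θ => f θ * wt β H E ω θ) η =
      nu Q (fun θ => f θ * exp (H θ + ∑ b ∈ E, β * ss b θ)) η := by
  rw [← nu_sum _ _ _ fun _ _ => by fun_prop]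
  simp only [← mul_sum, sum_wt]

lemma wt_erase (hβ : 0 ≤ β) (hω : ω ⊆ E) {b : V × V} (hb : b ∈ ω) (θ : Ω) :
    wt β H E ω θ ≤ exp (2 * β) * |ss b θ| * wt β H E (ω.erase b) θ := by
  have e : E \ ω.erase b = insert b (E \ ω) := by
    ext c; by_cases h : c = b <;> simp [h, hω hb]
  rw [wt, wt, e, prod_insert (by simp [hb]), ← mul_prod_erase ω _ hb]
  have h1 := pp_le hβ b θ
  have h2 : 0 ≤ exp (H θ) * ((∏ b ∈ ω.erase b, pp β b θ) * ∏ b ∈ E \ ω, qq β b θ) :=
    mul_nonneg (exp_pos _).le (mul_nonneg (prod_nonneg fun _ _ => pp_nonneg _ _ _)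
      (prod_nonneg fun _ _ => (qq_pos _ _ _).le))
  nlinarith [mul_le_mul_of_nonneg_right h1 h2]

lemma wt_close (hβ : 0 ≤ β) (hω : ω ⊆ E) {Y : Finset (V × V)} (hY : Y ⊆ ω) (θ : Ω) :
    wt β H E ω θ ≤ exp (2 * β) ^ #Y * wt β H E (ω \ Y) θ := by
  induction Y using Finset.induction_on with
  | empty => simp
  | insert b Y hb ih =>
    refine (ih ((subset_insert _ _).trans hY)).trans ?_
    rw [card_insert_of_notMem hb, pow_succ, mul_assoc, sdiff_insert]
    gcongr
    refine (wt_erase hβ (sdiff_subset.trans hω) (b := b)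
      (mem_sdiff.2 ⟨hY (mem_insert_self _ _), hb⟩) θ).trans ?_
    have := wt_nonneg (β := β) (H := H) (E := E) (ω := (ω \ Y).erase b) θ
    gcongr
    exact mul_le_of_le_one_right (exp_pos _).le (abs_ss_le _ _)

/-- `x` is joined to `S` by open edges -/
def rch (ω : Finset (V × V)) (S : Finset V) (x : V) : Prop :=
  ∃ y ∈ S, Relation.ReflTransGen (fun a b => (a, b) ∈ ω ∨ (b, a) ∈ ω) y x

lemma rch_iff {S : Finset V} {b : V × V} (hb : b ∈ ω) : rch ω S b.1 ↔ rch ω S b.2 :=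
  ⟨fun ⟨y, hy, h⟩ => ⟨y, hy, h.tail (Or.inl hb)⟩, fun ⟨y, hy, h⟩ => ⟨y, hy, h.tail (Or.inr hb)⟩⟩

lemma rch_self {S : Finset V} {x : V} (hx : x ∈ S) : rch ω S x := ⟨x, hx, .refl⟩

lemma rch_ind {S : Finset V} {p : V → Prop} (h0 : ∀ y ∈ S, p y)
    (h1 : ∀ b ∈ ω, (rch ω S b.1 → p b.1 → p b.2) ∧ (rch ω S b.2 → p b.2 → p b.1)) {x : V}
    (hx : rch ω S x) : p x := by
  obtain ⟨y, hy, h⟩ := hx
  induction h with
  | refl => exact h0 y hy
  | tail h2 h3 ih => exact h3.elim (fun e => (h1 _ e).1 ⟨y, hy, h2⟩ ih) fun e => (h1 _ e).2 ⟨y, hy, h2⟩ ih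

lemma rch_mono {ω' : Finset (V × V)} (h : ω ⊆ ω') {S : Finset V} {x : V} (hx : rch ω S x) :
    rch ω' S x :=
  rch_ind (fun _ => rch_self)
    (fun _ hb => ⟨fun _ => (rch_iff (h hb)).1, fun _ => (rch_iff (h hb)).2⟩) hx

/-- reflection of the spins in `U` -/
noncomputable def fl (U : V → Prop) (θ : Ω) : Ω := fun x => if U x then -θ x else θ x

lemma fl_sin (U : V → Prop) (θ : Ω) (x : V) :
    (fl U θ x).sin = if U x then -(θ x).sin else (θ x).sin := by
  unfold fl; split_ifs <;> simp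

lemma nu_fl {Q : Finset V} (η : Ω) {U : V → Prop} (hU : ∀ x, U x → x ∈ Q) {F : Ω → ℝ}
    (hF : Continuous F) : nu Q (fun θ => F (fl U θ)) η = nu Q F η := by
  let φ : Ω →+ Ω :=
    { toFun := fl U
      map_zero' := by ext x; simp [fl]
      map_add' := fun a b => by ext x; simp only [fl, Pi.add_apply]; split_ifs <;> abel }
  have hφ : Continuous φ := continuous_pi fun x => by
    change Continuous fun θ : Ω => if U x then -θ x else θ x
    split_ifs <;> fun_prop
  have := av_hom φ hφ (fun θ => ⟨φ θ, by ext x; by_cases h : U x <;> simp [φ, fl, h]⟩)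
    (F := fun σ => F (pw Q σ η)) (by fun_prop)
  rw [nu, nu, ← this]
  congr 1; ext σ; congr 1; ext x
  by_cases h : U x
  · simp [φ, fl, pw, h, hU x h]
  · simp [φ, fl, pw, h]

lemma nu_fl_le {Q : Finset V} (η : Ω) {U : V → Prop} (hU : ∀ x, U x → x ∈ Q) {F K : Ω → ℝ}
    (hF : Continuous F) (hK : Continuous K) (h : ∀ θ, K θ ≤ F θ + F (fl U θ)) :
    nu Q K η ≤ 2 * nu Q F η := by
  have hfl : Continuous fun θ => F (fl U θ) :=
    hF.comp (continuous_pi fun x => by unfold fl; split_ifs <;> fun_prop)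
  rw [two_mul]
  nth_rewrite 2 [← nu_fl η hU hF]
  rw [← nu_add _ _ hF hfl]
  exact nu_mono _ _ hK (hF.add hfl) h

lemma ss_fl {U : V → Prop} {b : V × V} (h : U b.1 ↔ U b.2) (θ : Ω) : ss b (fl U θ) = ss b θ := by
  by_cases h1 : U b.1
  · simp [ss, fl_sin, h1, h.1 h1]
  · simp [ss, fl_sin, h1, mt h.2 h1]

lemma cc_fl (U : V → Prop) (b : V × V) (θ : Ω) : cc b (fl U θ) = cc b θ := by
  simp only [cc, fl]; split_ifs <;> simp

lemma wt_fl {U : V → Prop} (h : ∀ b ∈ ω, (U b.1 ↔ U b.2)) {θ : Ω} (hH : H (fl U θ) = H θ) :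
    wt β H E ω (fl U θ) = wt β H E ω θ := by
  have hq : ∀ b, qq β b (fl U θ) = qq β b θ := fun b => by
    simp only [qq, ss, abs_mul, fl_sin]; split_ifs <;> simp
  simp only [wt, hH, hq]
  rw [prod_congr rfl fun b hb => show pp β b (fl U θ) = pp β b θ by rw [pp, pp, hq, ss_fl (h b hb)]]

lemma wt_sign (hβ : 0 ≤ β) {θ : Ω} (h : wt β H E ω θ ≠ 0) {b : V × V} (hb : b ∈ ω) :
    0 < ss b θ := by
  by_contra h0
  refine h (by
    rw [wt, prod_eq_zero hb, zero_mul, mul_zero]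
    rw [pp, qq, abs_of_nonpos (mul_nonpos_of_nonneg_of_nonpos hβ (not_lt.1 h0)), neg_neg, sub_self])

section arm
variable (hβ : 0 ≤ β) (hH : Continuous H) {Q D : Finset V} (hD : D ⊆ Q) (η : Ω)
  (hinv : ∀ U : V → Prop, (∀ x, U x → x ∈ D) → ∀ θ, H (fl U θ) = H θ) (h : ℝ)
include hβ hH hD hinv

lemma arm1 (hω : ∀ b ∈ ω, b.1 ∈ D ∧ b.2 ∈ D) (S : Finset V) (hS : S ⊆ D) :
    nu Q (fun θ => exp (∑ x ∈ D, h * if rch ω S x then |(θ x).sin| else (θ x).sin) *
      wt β H E ω θ) η ≤ 2 ^ #S * nu Q (fun θ => exp (∑ x ∈ D, h * (θ x).sin) * wt β H E ω θ) η := by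
  have hc : ∀ S : Finset V, Continuous fun θ : Ω =>
      exp (∑ x ∈ D, h * if rch ω S x then |(θ x).sin| else (θ x).sin) * wt β H E ω θ := fun S => by
    refine Continuous.mul (continuous_exp.comp (continuous_finsetSum _ fun x _ => ?_)) (cont_wt hH)
    split_ifs <;> fun_prop
  induction S using Finset.induction_on with
  | empty => simp [rch]
  | insert y S hy ih =>
    refine le_trans ?_ ((mul_le_mul_of_nonneg_left (ih ((subset_insert _ _).trans hS))
      zero_le_two).trans_eq (by rw [card_insert_of_notMem hy]; ring))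
    have hU : ∀ x, rch ω {y} x → x ∈ D := fun x hx =>
      rch_ind (p := (· ∈ D)) (by simpa using hS (mem_insert_self _ _))
        (fun b hb => ⟨fun _ _ => (hω b hb).2, fun _ _ => (hω b hb).1⟩) hx
    refine nu_fl_le η (fun x hx => hD (hU x hx)) (hc S) (hc _) fun θ => ?_
    rw [wt_fl (fun b hb => rch_iff hb) (hinv _ hU θ), ← add_mul]
    by_cases h0 : wt β H E ω θ = 0
    · simp [h0]
    refine mul_le_mul_of_nonneg_right ?_ (wt_nonneg θ)
    have hi : ∀ x, rch ω (insert y S) x ↔ rch ω {y} x ∨ rch ω S x := fun x => by simp [rch]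
    have sg : ∀ x, rch ω {y} x → x = y ∨ 0 < (θ x).sin * (θ y).sin := fun x hx => by
      refine rch_ind (p := fun x => x = y ∨ 0 < (θ x).sin * (θ y).sin) (by simp) (fun b hb => ?_) hx
      have := wt_sign hβ h0 hb
      unfold ss at this
      constructor <;> rintro - (e | e) <;> right
      · rw [← e]; linarith
      · nlinarith [mul_pos this e, sq_nonneg (θ b.1).sin]
      · rw [← e]; linarith
      · nlinarith [mul_pos this e, sq_nonneg (θ b.2).sin]
    rcases le_total 0 (θ y).sin with hy0 | hy0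
    · refine le_add_of_le_of_nonneg (le_of_eq ?_) (exp_pos _).le
      congr 1
      refine sum_congr rfl fun x _ => ?_
      by_cases h1 : rch ω S x
      · simp [hi, h1]
      by_cases h2 : rch ω {y} x
      · simp only [hi, h1, h2, true_or, if_true, if_false]
        rw [abs_of_nonneg]
        rcases sg x h2 with e | e
        · rwa [e]
        · by_contra h3; nlinarith
      · simp [hi, h1, h2]
    · refine le_add_of_nonneg_of_le (exp_pos _).le (le_of_eq ?_)
      congr 1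
      refine sum_congr rfl fun x _ => ?_
      by_cases h1 : rch ω S x
      · simp only [hi, h1, or_true, if_true, fl_sin]; split_ifs <;> simp
      by_cases h2 : rch ω {y} x
      · simp only [hi, h1, h2, true_or, if_true, if_false, fl_sin]
        rw [abs_of_nonpos]
        rcases sg x h2 with e | e
        · rwa [e]
        · by_contra h3; nlinarith
      · simp [hi, h1, h2, fl_sin]

lemma arm2 (hω : ∀ b ∈ ω, b.1 ∈ D ∧ b.2 ∈ D) (S : Finset V) (hS : S ⊆ D) :
    nu Q (fun θ => exp (∑ x ∈ D, h * if rch ω S x then |(θ x).sin| else 0) *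
      wt β H E ω θ) η ≤ 2 ^ #S * nu Q (fun θ => exp (∑ x ∈ D, h * (θ x).sin) * wt β H E ω θ) η := by
  refine le_trans ?_ (arm1 hβ hH hD η hinv h hω S hS)
  have hc : Continuous fun θ : Ω =>
      exp (∑ x ∈ D, h * if rch ω S x then |(θ x).sin| else (θ x).sin) * wt β H E ω θ := by
    refine Continuous.mul (continuous_exp.comp (continuous_finsetSum _ fun x _ => ?_)) (cont_wt hH)
    split_ifs <;> fun_prop
  have hc' : Continuous fun θ : Ω =>
      exp (∑ x ∈ D, h * if rch ω S x then |(θ x).sin| else 0) * wt β H E ω θ := by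
    refine Continuous.mul (continuous_exp.comp (continuous_finsetSum _ fun x _ => ?_)) (cont_wt hH)
    split_ifs <;> fun_prop
  let U : V → Prop := fun x => x ∈ D ∧ ¬ rch ω S x
  refine le_of_mul_le_mul_left ?_ two_pos
  rw [← nu_mul]
  refine nu_fl_le η (U := U) (fun x hx => hD hx.1) hc (by fun_prop) fun θ => ?_
  rw [wt_fl (fun b hb => by simp [U, hω b hb, rch_iff hb]) (hinv _ (fun x hx => hx.1) θ), ← add_mul,
    ← mul_assoc]
  refine mul_le_mul_of_nonneg_right ?_ (wt_nonneg θ)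
  set a := ∑ x ∈ D, h * if rch ω S x then |(θ x).sin| else 0
  set y := ∑ x ∈ D, h * if rch ω S x then 0 else (θ x).sin
  have e1 : ∑ x ∈ D, h * (if rch ω S x then |(θ x).sin| else (θ x).sin) = a + y := by
    rw [← sum_add_distrib]
    refine sum_congr rfl fun x _ => ?_
    split_ifs <;> simp
  have e2 : ∑ x ∈ D, h * (if rch ω S x then |(fl U θ x).sin| else (fl U θ x).sin) = a - y := by
    rw [← sum_sub_distrib]
    refine sum_congr rfl fun x hx => ?_
    by_cases h1 : rch ω S x <;> simp [fl_sin, U, h1, hx]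
  rw [e1, e2]
  have := exp_tan a (a + y)
  have := exp_tan a (a - y)
  linarith

end arm

end Pool.Agent.MP_b591f0_mp
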