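import Pool.Agent.MP_b591f0_mp.Lat

/-! The finite-volume estimate, uniform in the boundary condition. -/

open MeasureTheory Real Finset

namespace Pool.Agent.MP_b591f0_mp

open scoped Classical

variable {β : ℝ}

/-- small magnetisation in a small field -/
lemma mag (hβ : 0 ≤ β) {ε : ℝ} (hε : 0 < ε) : ∃ k : ℕ, ∃ h > 0, ∀ (x : V) (Q D : Finset V) (η : Ω),
    sh x (box k) ⊆ Q →
      gam Q (fun θ => Ham β Q θ + ∑ y ∈ D, h * (θ y).sin) (fun θ => (θ x).sin) η ≤ ε := by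
  obtain ⟨k, hk⟩ := mw hβ (ev 0) 0 one_ne_zero
    (fun g a h => by simpa using h 0 (by simp [mem_box])) (half_pos hε)
  have c0 : (0 : ℝ) < #(box k) := by rw [card_box]; positivity
  refine ⟨k, ε / (16 * #(box k)), by positivity, fun x Q D η hQ => ?_⟩
  set h := ε / (16 * #(box k)) with hh
  have h0 : 0 ≤ h := by positivity
  refine gam_le_of_sub _ η hQ (by fun_prop) (by fun_prop) fun η' => ?_
  have g := gin ((Ed Q).disjSum D) (Sum.elim (fun b => ev b.1 - ev b.2) ev)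
    (Sum.elim (fun _ => 0) fun _ => ((π / 2 : ℝ) : A)) (Sum.elim (fun _ => β) fun _ => h)
    (Sum.elim (fun _ => β) fun _ => h) (by rintro (i | i) - <;> simp [abs_of_nonneg, hβ, h0])
    (sh x (box k)) η' (ev x) 0 ((π / 2 : ℝ) : A) 0
    (fun θ => Ham β Q θ + ∑ y ∈ D, h * (θ y).sin) (fun θ => Ham β Q θ + ∑ y ∈ D, h * (θ y).cos)
    (by ext θ; simp [sum_disjSum, Ham, Angle.cos_sub_pi_div_two])
    (by ext θ; simp [sum_disjSum, Ham])
  simp only [ev_apply, Angle.cos_sub_pi_div_two] at g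
  obtain ⟨κ, hκ⟩ := Ham_sub β hQ 0
  have l := gam_lip (sh x (box k)) 0 (H := Ham β (sh x (box k)))
    (H' := fun θ => Ham β Q θ + ∑ y ∈ D, h * (θ y).cos) (f := fun θ => (θ x).cos) (by fun_prop)
    (by fun_prop) (by fun_prop) (κ := -κ - ∑ y ∈ D, h) (δ := ε / 8) (fun σ => by
      have e : ∀ y ∈ D, |h - h * (pw (sh x (box k)) σ 0 y).cos| ≤
          if y ∈ sh x (box k) then 2 * h else 0 := fun y _ => by
        split_ifs with hy
        · have := abs_le.1 (abs_cos_le (pw (sh x (box k)) σ 0 y))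
          rw [abs_le]; constructor <;> nlinarith
        · simp [pw, hy]
      have e2 := (abs_sum_le_sum_abs _ _).trans (sum_le_sum e)
      rw [sum_sub_distrib, ← sum_filter, sum_const (2 * h), nsmul_eq_mul] at e2
      have e3 : (#(D.filter (· ∈ sh x (box k))) : ℝ) ≤ #(box k) := by
        exact_mod_cast (card_le_card fun y hy => (mem_filter.1 hy).2).trans card_image_le
      have e4 : (#(box k) : ℝ) * (2 * h) = ε / 8 := by rw [hh]; field_simp; norm_num
      rw [hκ]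
      refine le_trans (le_of_eq ?_) (e2.trans (by rw [← e4]; gcongr))
      congr 1; ring) fun θ => abs_cos_le _
  have t := gam_tr β x (box k) (f := fun θ => (θ 0).cos) (by fun_prop : Continuous _).measurable 0
  have := hk k le_rfl 0 (tr x 0)
  simp only [tr, zero_add, ev_apply, sub_zero] at t this
  linarith

lemma sum_fst_le {F : Finset (V × V)} {D : Finset V} (hF : ∀ b ∈ F, nn b ∧ b.1 ∈ D ∧ b.2 ∈ D)
    {ρ : V → ℝ} (hρ : ∀ x, 0 ≤ ρ x) : ∑ b ∈ F, (ρ b.1 + ρ b.2) ≤ 4 * ∑ x ∈ D, ρ x := by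
  have key : ∀ (e : V) (p : V × V → V), (∀ b ∈ F, p b ∈ D) →
      Set.InjOn p (F.filter fun b => b.2 = b.1 + e) →
      ∑ b ∈ F.filter fun b => b.2 = b.1 + e, ρ (p b) ≤ ∑ x ∈ D, ρ x := fun e p hp hi => by
    rw [← sum_image hi]
    refine sum_le_sum_of_subset_of_nonneg (fun x hx => ?_) fun _ _ _ => hρ _
    obtain ⟨b, hb, rfl⟩ := mem_image.1 hx
    exact hp b (mem_filter.1 hb).1
  have k2 : ∀ e : V, ∑ b ∈ F.filter fun b => b.2 = b.1 + e, (ρ b.1 + ρ b.2) ≤ 2 * ∑ x ∈ D, ρ x :=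
    fun e => by
    rw [sum_add_distrib, two_mul]
    refine add_le_add (key e Prod.fst (fun b hb => (hF b hb).2.1) fun b hb c hc h => ?_)
      (key e Prod.snd (fun b hb => (hF b hb).2.2) fun b hb c hc h => ?_)
    · exact Prod.ext h (by rw [(mem_filter.1 hb).2, (mem_filter.1 hc).2, h])
    · refine Prod.ext (add_right_cancel (b := e) ?_) h
      rw [← (mem_filter.1 hb).2, ← (mem_filter.1 hc).2, h]
  have : F ⊆ (F.filter fun b => b.2 = b.1 + (1, 0)) ∪ F.filter fun b => b.2 = b.1 + (0, 1) :=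
    fun b hb => by simpa [hb, nn] using (hF b hb).1
  refine (sum_le_sum_of_subset_of_nonneg this fun b _ _ => add_nonneg (hρ _) (hρ _)).trans ?_
  have h1 := sum_union_inter (s₁ := F.filter fun b => b.2 = b.1 + (1, 0))
    (s₂ := F.filter fun b => b.2 = b.1 + (0, 1)) (f := fun b => ρ b.1 + ρ b.2)
  have h2 : 0 ≤ ∑ b ∈ (F.filter fun b => b.2 = b.1 + (1, 0)) ∩ F.filter fun b => b.2 = b.1 + (0, 1),
    (ρ b.1 + ρ b.2) := sum_nonneg fun b _ => add_nonneg (hρ _) (hρ _)
  linarith [k2 (1, 0), k2 (0, 1)]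

/-- sup norm -/
def nr (x : V) : ℕ := max x.1.natAbs x.2.natAbs

lemma mem_box' {n : ℕ} {x : V} : x ∈ box n ↔ nr x ≤ n := by simp only [mem_box, nr]; omega

lemma nn.nr {b : V × V} (h : nn b) : nr b.1 ≤ nr b.2 + 1 ∧ nr b.2 ≤ nr b.1 + 1 := by
  rcases h with e | e <;>
    simp only [Pool.Agent.MP_b591f0_mp.nr, e, Prod.fst_add, Prod.snd_add] <;> omega

lemma level {m : ℕ} (hm : 0 < m) {ρ : V → ℝ} (hρ : ∀ x, 0 ≤ ρ x) : ∃ r, m ≤ r ∧ r < 2 * m ∧
    m * ∑ b ∈ (Ed (box (2 * m + 2))).filter fun b => ¬(b.1 ∈ box (r + 1) ↔ b.2 ∈ box (r + 1)),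
      (ρ b.1 + ρ b.2) ≤ 4 * ∑ x ∈ box (2 * m + 2) \ box m, ρ x := by
  let F : ℕ → Finset (V × V) := fun r =>
    (Ed (box (2 * m + 2))).filter fun b => ¬(b.1 ∈ box (r + 1) ↔ b.2 ∈ box (r + 1))
  have h1 : ∑ r ∈ Ico m (2 * m), ∑ b ∈ F r, (ρ b.1 + ρ b.2) ≤
      4 * ∑ x ∈ box (2 * m + 2) \ box m, ρ x := by
    rw [← sum_biUnion]
    · refine sum_fst_le (fun b hb => ?_) hρ
      obtain ⟨r, hr, hb⟩ := mem_biUnion.1 hb
      simp only [F, mem_filter, mem_Ed, mem_Ico] at hb hr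
      refine ⟨hb.1.1, ?_⟩
      have := hb.2
      have h3 := hb.1.1.nr
      simp only [mem_sdiff, mem_box'] at this ⊢; omega
    · intro r _ s _ hrs
      simp only [Function.onFun, disjoint_left, F, mem_filter, mem_Ed]
      rintro b ⟨⟨h, -⟩, h1⟩ ⟨-, h2⟩
      have := h.nr
      simp only [mem_box'] at h1 h2; omega
  obtain ⟨r, hr, h⟩ := exists_le_of_sum_le (s := Ico m (2 * m)) ⟨m, by simp; omega⟩
    (f := fun r => m * ∑ b ∈ F r, (ρ b.1 + ρ b.2))
    (g := fun _ => 4 * ∑ x ∈ box (2 * m + 2) \ box m, ρ x) (by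
      rw [← mul_sum, sum_const, Nat.card_Ico, show 2 * m - m = m by omega, nsmul_eq_mul]
      gcongr)
  exact ⟨r, (mem_Ico.1 hr).1, (mem_Ico.1 hr).2, h⟩

lemma fv0 (hβ : 0 ≤ β) {b₀ : V × V} (hb : nn b₀) {K : ℕ} (h₁ : b₀.1 ∈ box K) (h₂ : b₀.2 ∈ box K)
    {t l ε h : ℝ} {k : ℕ} (ht : 0 ≤ t) (htβ : t ≤ β) (hl : 0 ≤ l) (hε : 0 ≤ ε) (hh : 0 < h)
    (hk : ∀ (x : V) (Q D : Finset V) (η : Ω), sh x (box k) ⊆ Q →
      gam Q (fun θ => Ham β Q θ + ∑ y ∈ D, h * (θ y).sin) (fun θ => (θ x).sin) η ≤ ε)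
    {n m : ℕ} (hm : m = n + K + 1) (hkm : k ≤ m) {R : Finset V} (hR : R ⊆ box n) (η : Ω) :
    t * ∑ x ∈ R, (gam (box K) (Ham β (box K)) (ss b₀) 0 - 4 * (t * #(Ed (box K))) -
      gam (box (2 * m + 2)) (Ham β (box (2 * m + 2))) (fun θ => ss b₀ (tr x θ)) η) ≤
      64 * m * (exp (-l) * exp (2 * β)) +
        l * exp (2 * β) * (4 * (160 * (2 * β + 3) / h + 81 * ε * m + 36 * k)) := by
  set Q := box (2 * m + 2) with hQ
  set M := box m with hM
  set Ein := (Ed Q).filter fun b => b.1 ∈ M ∧ b.2 ∈ M with hEin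
  set E := Ed Q \ Ein with hE
  set H : Ω → ℝ := fun θ => ∑ b ∈ Ed Q, β * cc b θ + ∑ b ∈ Ein, β * ss b θ with hH
  have cH : Continuous H := by fun_prop
  have m0 : 0 < m := by omega
  have m0' : (0 : ℝ) < m := by exact_mod_cast m0
  have hG : Ham β Q = fun θ => H θ + ∑ b ∈ E, β * ss b θ := by
    ext θ
    simp only [hH, hE, add_assoc]
    rw [add_comm (∑ b ∈ Ein, _), sum_sdiff (filter_subset _ _), ← sum_add_distrib]
    exact sum_congr rfl fun b _ => by rw [cos_sub', cc, ss]; ring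
  have Zp := nu_pos Q η (cont_Ham β Q)
  set Z := nu Q (fun θ => exp (Ham β Q θ)) η
  -- arms
  have a1 := arms (E := E) (M := M) (D := Q \ M) hβ cH sdiff_subset η (fun U hU θ => by
      simp only [hH, cc_fl]
      congr 1
      refine sum_congr rfl fun b hb => ?_
      have := (mem_filter.1 hb).2
      rw [ss_fl (iff_of_false (fun h => (mem_sdiff.1 (hU _ h)).2 this.1)
        fun h => (mem_sdiff.1 (hU _ h)).2 this.2)]) hh.le
    (F := Ed (box (n + K + 1) \ box (n + K)) ∪ Ed (box (2 * m + 1 + 1) \ box (2 * m + 1)))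
    (fun b hb hb' => by
      simp only [hE, hEin, mem_sdiff, mem_filter, mem_Ed, mem_union, hQ, hM] at hb hb' ⊢
      obtain ⟨⟨h1, h2⟩, h3⟩ := hb
      simp only [h1, h2, true_and, and_self] at h3 hb'
      have := h1.nr
      simp only [mem_box'] at h2 h3 hb' ⊢; omega)
    (fun x hx h => (mem_sdiff.1 h).2 hx) _ hG
  have c1 : (#(Ed (box (n + K + 1) \ box (n + K)) ∪ Ed (box (2 * m + 1 + 1) \ box (2 * m + 1))) : ℝ)
      ≤ 160 * m := by
    have e1 := card_Ed (box (n + K + 1) \ box (n + K))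
    have e2 := card_Ed (box (2 * m + 1 + 1) \ box (2 * m + 1))
    have := card_union_le (Ed (box (n + K + 1) \ box (n + K)))
      (Ed (box (2 * m + 1 + 1) \ box (2 * m + 1)))
    rw [card_shell] at e1 e2
    exact_mod_cast (by omega)
  have c2 : ∑ x ∈ Q \ M, gam Q (fun θ => Ham β Q θ + ∑ y ∈ Q \ M, h * (θ y).sin)
      (fun θ => (θ x).sin) η ≤ 81 * ε * m ^ 2 + 36 * k * m := by
    obtain ⟨p, hp⟩ : ∃ p, 2 * m + 2 = p + k := ⟨2 * m + 2 - k, by omega⟩
    calc _ ≤ ∑ x ∈ Q \ M, (ε + if x ∈ Q \ box p then 1 else 0) := sum_le_sum fun x hx => ?_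
      _ ≤ _ := ?_
    · split_ifs with h1
      · exact ((le_abs_self _).trans (abs_gam_le _ _ (by fun_prop) (by fun_prop)
          fun θ => abs_sin_le _)).trans (by linarith)
      · refine (hk x Q _ η fun y hy => ?_).trans (by linarith)
        have := (mem_sdiff.1 hx).1
        simp only [mem_sdiff, this, true_and, not_not] at h1
        simp only [mem_sh, mem_box, hQ, Prod.fst_sub, Prod.snd_sub] at hy h1 ⊢
        omega
    · rw [sum_add_distrib, sum_const, nsmul_eq_mul, ← sum_filter, sum_const, nsmul_eq_mul, mul_one]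
      have e1 : #(Q \ M) ≤ 81 * m ^ 2 := (card_le_card sdiff_subset).trans (by
        rw [card_box]; nlinarith)
      have e2 : #((Q \ M).filter (· ∈ Q \ box p)) ≤ 36 * k * m :=
        (card_le_card fun x hx => (mem_filter.1 hx).2).trans (by
          rw [hQ, hp, card_shell]; nlinarith)
      have e1' : (#(Q \ M) : ℝ) ≤ 81 * m ^ 2 := by exact_mod_cast e1
      have e2' : (#((Q \ M).filter (· ∈ Q \ box p)) : ℝ) ≤ 36 * k * m := by exact_mod_cast e2
      nlinarith
  have a2 : ∑ x ∈ Q \ M, rho β H E Q M η x ≤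
      m * (160 * (2 * β + 3) / h + 81 * ε * m + 36 * k) * Z := by
    refine le_of_mul_le_mul_left (a1.trans ?_) hh
    rw [← mul_assoc]
    gcongr
    calc _ ≤ 160 * m * (2 * β + 3) + h * (81 * ε * m ^ 2 + 36 * k * m) := by gcongr
      _ = _ := by field_simp; ring
  obtain ⟨r, r1, r2, r3⟩ := level m0 (rho_nonneg (β := β) (H := H) (E := E) (Q := Q) (M := M) η)
  set F := (Ed Q).filter fun b => ¬(b.1 ∈ box (r + 1) ↔ b.2 ∈ box (r + 1)) with hF
  let e : V → V × V := fun x => (b₀.1 + x, b₀.2 + x)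
  have einj : Function.Injective e := fun x y h => add_left_cancel (congrArg Prod.fst h)
  have hBM : ∀ x ∈ R, ∀ b, nn b → b.1 ∈ sh x (box K) ∨ b.2 ∈ sh x (box K) → b ∈ Ein :=
    fun x hx b h1 h2 => by
    have := hR hx
    simp only [hEin, mem_filter, mem_Ed, h1, true_and, hQ, hM]
    rcases h1 with e | e <;> simp only [mem_sh, mem_box, e, Prod.fst_add, Prod.snd_add,
      Prod.fst_sub, Prod.snd_sub] at h2 this ⊢ <;> omega
  have he : ∀ x ∈ R, e x ∈ Ein := fun x hx => hBM x hx _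
    (hb.imp (fun h => by simp only [e, h]; abel) fun h => by simp only [e, h]; abel)
    (Or.inl (by simpa [mem_sh, e] using h₁))
  have hB : ∀ x ∈ R, sh x (box K) ⊆ M := fun x hx y hy => by
    have := hR hx
    simp only [mem_sh, mem_box, hM, Prod.fst_sub, Prod.snd_sub] at hy this ⊢; omega
  have MQ : M ⊆ Q := box_mono (by omega)
  have hs : ∀ θ, ∑ j ∈ R, t * ss (e j) θ =
      ∑ b ∈ Ein, (if b ∈ R.image e then t else 0) * ss b θ := fun θ => by
    simp only [ite_mul, zero_mul]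
    rw [← sum_filter, filter_mem_eq_inter, inter_eq_right.2 (image_subset_iff.2 he),
      sum_image einj.injOn]
  have a3 := cut (E := E) (M := M) (U₀ := box (r + 1)) (Q := Q) hβ cH (box_mono (by omega))
    (box_mono (by omega)) η (F := F) (fun b hb hb' => by
      simpa [hF, (mem_sdiff.1 hb).1] using hb') R e ht hl
    (a := gam (box K) (Ham β (box K)) (ss b₀) 0 - 4 * (t * #(Ed (box K))))
    (fun ω hω U h1 h2 h3 x hx => by
      have nE : ∀ b ∈ E, b.1 ∉ sh x (box K) ∧ b.2 ∉ sh x (box K) := fun b hb => not_or.1 fun h =>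
        (mem_sdiff.1 hb).2 (hBM x hx b (mem_Ed.1 (mem_sdiff.1 hb).1).1 h)
      refine le_trans (mul_le_mul_of_nonneg_right ?_ (nu_nonneg _ _ wt_nonneg))
        (sign_ineq ((hB x hx).trans h1) h2 η (Ed Q) Ein ω (E \ ω) hβ
          (fun b => β - if b ∈ R.image e then t else 0) (fun b _ => by split_ifs <;> linarith)
          (fun b hb => ⟨(nE b (hω hb)).1, (nE b (hω hb)).2, h3 b hb⟩)
          (fun b hb => nE b (mem_sdiff.1 hb).1)
          (fun b hb => ⟨h1 (mem_filter.1 hb).2.1, h1 (mem_filter.1 hb).2.2⟩) (e x)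
          ⟨h1 (mem_filter.1 (he x hx)).2.1, h1 (mem_filter.1 (he x hx)).2.2⟩
          (fun θ => H θ - ∑ j ∈ R, t * ss (e j) θ)
          (by ext θ; simp only [hH, hs, sub_mul, sum_sub_distrib]; ring) _ rfl)
      obtain ⟨κ, hκ⟩ := Ham_sub β ((hB x hx).trans MQ) 0
      have tt := gam_tr β x (box K) (f := ss b₀) (cont_ss b₀).measurable 0
      change gam _ _ (ss (e x)) 0 = gam _ _ _ 0 at tt
      rw [← tt]
      refine gam_lip _ 0 (by fun_prop) (by fun_prop) (by fun_prop) (κ := κ) (fun σ => ?_)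
        (abs_ss_le _)
      have z : ∀ b : V × V, b.1 ∉ sh x (box K) → ss b (pw (sh x (box K)) σ 0) = 0 :=
        fun b hb => by simp [ss, pw, hb]
      have z1 := hκ σ
      rw [hG] at z1
      simp only [sum_eq_zero fun b hb => show β * ss b _ = 0 by rw [z b (nE b hb).1, mul_zero],
        add_zero] at z1
      rw [z1, hs, show ∀ a c : ℝ, a + κ - c - a - κ = -c by intros; ring, abs_neg]
      refine (abs_sum_le_sum_abs _ _).trans ((sum_le_sum
        (g := fun b => if b ∈ Ed (sh x (box K)) then t else 0) fun b hb => ?_).trans ?_)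
      · by_cases hb' : b ∈ Ed (sh x (box K))
        · rw [if_pos hb', abs_mul]
          refine (mul_le_of_le_one_right (abs_nonneg _) (abs_ss_le _ _)).trans ?_
          split_ifs <;> simp [abs_of_nonneg, ht]
        · rw [if_neg hb', z b fun h => hb' (mem_Ed.2 ⟨(mem_Ed.1 (mem_filter.1 hb).1).1, .inl h⟩)]
          simp
      · rw [← sum_filter, sum_const, nsmul_eq_mul, mul_comm]
        refine mul_le_mul_of_nonneg_left (Nat.cast_le.2 ?_) ht
        refine (card_le_card fun b hb => (mem_filter.1 hb).2).trans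
          (card_le_card_of_injOn (fun b : V × V => (b.1 - x, b.2 - x)) (fun b hb => ?_) fun b _ c _ h => ?_)
        · simp only [mem_coe, mem_Ed, mem_sh, nn] at hb ⊢
          refine ⟨hb.1.imp ?_ ?_, hb.2⟩ <;> intro h <;> rw [h] <;> abel
        · simpa [Prod.ext_iff] using h) _ hG
  have c3 : (#F : ℝ) ≤ 64 * m := by
    have e1 := card_Ed (box (r + 1) \ box r)
    have e2 : F ⊆ Ed (box (r + 1) \ box r) := fun b hb => by
      simp only [hF, mem_filter, mem_Ed, mem_sdiff] at hb ⊢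
      obtain ⟨⟨h1, -⟩, h2⟩ := hb
      refine ⟨h1, ?_⟩
      have := h1.nr
      simp only [mem_box'] at h2 ⊢; omega
    have := card_le_card e2
    rw [card_shell] at e1
    exact_mod_cast (by omega)
  refine a3.trans ?_
  rw [mul_div_assoc]
  gcongr
  rw [div_le_iff₀ Zp]
  refine le_of_mul_le_mul_left (r3.trans ?_) m0'
  linarith

lemma fv (hβ : 0 < β) {b₀ : V × V} (hb : nn b₀) {K : ℕ} (h₁ : b₀.1 ∈ box K) (h₂ : b₀.2 ∈ box K)
    {ε δ : ℝ} (hε : 0 < ε) (hδ : 0 < δ) : ∃ N, ∀ n ≥ N, ∃ Q, ∀ R ⊆ box n, ∀ η,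
      ∑ x ∈ R, (gam (box K) (Ham β (box K)) (ss b₀) 0 - ε -
        gam Q (Ham β Q) (fun θ => ss b₀ (tr x θ)) η) ≤ δ * n := by
  set c : ℝ := (#(Ed (box K)) : ℝ)
  have c0 : 0 ≤ c := Nat.cast_nonneg _
  set t := min β (ε / (4 * c + 1)) with ht
  have t0 : 0 < t := lt_min hβ (by positivity)
  have t1 : 4 * (t * c) ≤ ε := by
    have := (le_div_iff₀ (by positivity)).1 (min_le_right β (ε / (4 * c + 1)))
    nlinarith
  set B := exp (2 * β)
  have B0 : 0 < B := exp_pos _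
  set l := 512 * B / (t * δ) with hl
  have l0 : 0 < l := by positivity
  have l1 : exp (-l) * B ≤ t * δ / 512 := by
    have h1 : l * exp (-l) ≤ 1 := by
      rw [exp_neg, ← div_eq_mul_inv, div_le_one (exp_pos _)]; linarith [add_one_le_exp l]
    have h2 : exp (-l) * B = l * exp (-l) * (t * δ / 512) := by rw [hl]; field_simp
    rw [h2]; exact mul_le_of_le_one_left (by positivity) h1
  obtain ⟨k, h, hh, hk⟩ := mag hβ.le (ε := t * δ / (2592 * l * B)) (by positivity)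
  obtain ⟨N, hN⟩ := exists_nat_gt
    (l * B * (4 * (160 * (2 * β + 3) / h + 36 * k)) / (t * δ / 2))
  refine ⟨max N (max (K + 1) k), fun n hn => ⟨box (2 * (n + K + 1) + 2), fun R hR η => ?_⟩⟩
  have := fv0 hβ.le hb h₁ h₂ t0.le (min_le_left _ _) l0.le (by positivity) hh hk rfl
    (by omega) hR η
  refine le_of_mul_le_mul_left (le_trans ?_ (this.trans ?_)) t0
  · gcongr
  · have n1 : ((n + K + 1 : ℕ) : ℝ) ≤ 2 * n := by exact_mod_cast (by omega)
    have n2 : (N : ℝ) ≤ n := by exact_mod_cast (by omega)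
    rw [div_lt_iff₀ (by positivity)] at hN
    have e1 : l * B * (4 * (81 * (t * δ / (2592 * l * B)) * (2 * n))) = t * δ / 4 * n := by
      field_simp; ring
    have e2 := mul_le_mul_of_nonneg_right n2 (show 0 ≤ t * δ / 2 by positivity)
    calc _ ≤ 64 * (2 * n) * (t * δ / 512) + l * B * (4 * (160 * (2 * β + 3) / h +
          81 * (t * δ / (2592 * l * B)) * (2 * n) + 36 * k)) := by gcongr
      _ ≤ _ := by nlinarith

end Pool.Agent.MP_b591f0_mp
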