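import Pool.Agent.MP_b591f0_mp.Base

/-! Finite-volume kernels on the torus of spin configurations; Ginibre inequalities. -/

open MeasureTheory Set Real

namespace Pool.Agent.MP_b591f0_mp

abbrev V := ℤ × ℤ
abbrev A := Real.Angle

instance : CompactSpace A :=
  haveI : Fact (0 < 2 * π) := ⟨two_pi_pos⟩
  inferInstanceAs (CompactSpace (AddCircle (2 * π)))
instance : SecondCountableTopology A := inferInstance
noncomputable instance : MeasurableSpace A := inferInstanceAs (MeasurableSpace (AddCircle (2 * π)))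
instance : BorelSpace A := inferInstanceAs (BorelSpace (AddCircle (2 * π)))

abbrev Ω := V → A
abbrev Ch := Ω →ₜ+ A

attribute [fun_prop] Real.Angle.continuous_cos Real.Angle.continuous_sin

@[fun_prop] lemma Ch.cont (χ : Ch) : Continuous χ := map_continuous χ

lemma cos_sub' (a b : A) : (a - b).cos = a.cos * b.cos + a.sin * b.sin := by
  rw [sub_eq_add_neg, Angle.cos_add]; simp

lemma sin_sub' (a b : A) : (a - b).sin = a.sin * b.cos - a.cos * b.sin := by
  rw [sub_eq_add_neg, Angle.sin_add]; simp; ring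

lemma abs_cos_le (a : A) : |a.cos| ≤ 1 := by
  induction a using Angle.induction_on; exact abs_cos_le_one _

lemma abs_sin_le (a : A) : |a.sin| ≤ 1 := by
  induction a using Angle.induction_on; exact abs_sin_le_one _

lemma exists_half (a : A) : ∃ b : A, b + b = a :=
  ⟨(a.toReal / 2 : ℝ), by rw [← Angle.coe_add, add_halves, Angle.coe_toReal]⟩

/-- `σ` on `Λ`, `η` outside. -/
def pw (Λ : Finset V) (σ η : Ω) : Ω := fun x => if x ∈ Λ then σ x else η x

@[fun_prop] lemma cont_pw {X : Type*} [TopologicalSpace X] (Λ : Finset V) {σ η : X → Ω}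
    (hσ : Continuous σ) (hη : Continuous η) : Continuous fun z => pw Λ (σ z) (η z) :=
  continuous_pi fun x => by unfold pw; split_ifs <;> fun_prop

lemma pw_add (Λ : Finset V) (σ η σ' η' : Ω) :
    pw Λ (σ + σ') (η + η') = pw Λ σ η + pw Λ σ' η' := by
  ext x; simp only [pw, Pi.add_apply]; split_ifs <;> rfl

lemma pw_sub (Λ : Finset V) (σ η σ' η' : Ω) :
    pw Λ (σ - σ') (η - η') = pw Λ σ η - pw Λ σ' η' := by
  ext x; simp only [pw, Pi.sub_apply]; split_ifs <;> rfl

/-- average over the spins in `Λ` -/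
noncomputable def nu (Λ : Finset V) (F : Ω → ℝ) (η : Ω) : ℝ := av fun σ => F (pw Λ σ η)

/-- finite-volume Gibbs expectation for the (negative) energy `H` -/
noncomputable def gam (Λ : Finset V) (H f : Ω → ℝ) (η : Ω) : ℝ :=
  nu Λ (fun θ => f θ * exp (H θ)) η / nu Λ (fun θ => exp (H θ)) η

section nu
variable (Λ : Finset V) (η : Ω) {F K H f g : Ω → ℝ}

lemma nu_add (hF : Continuous F) (hK : Continuous K) :
    nu Λ (fun x => F x + K x) η = nu Λ F η + nu Λ K η := av_add (by fun_prop) (by fun_prop)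

lemma nu_sub (hF : Continuous F) (hK : Continuous K) :
    nu Λ (fun x => F x - K x) η = nu Λ F η - nu Λ K η := av_sub (by fun_prop) (by fun_prop)

lemma nu_mul (c : ℝ) (F : Ω → ℝ) : nu Λ (fun x => c * F x) η = c * nu Λ F η := av_mul _ _

lemma nu_sum {ι : Type*} (s : Finset ι) {F : ι → Ω → ℝ} (hF : ∀ i ∈ s, Continuous (F i)) :
    nu Λ (fun x => ∑ i ∈ s, F i x) η = ∑ i ∈ s, nu Λ (F i) η :=
  av_sum s (F := fun i σ => F i (pw Λ σ η)) fun i hi => by have := hF i hi; fun_prop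

lemma nu_mono' (hF : Continuous F) (hK : Continuous K) (h : ∀ σ, F (pw Λ σ η) ≤ K (pw Λ σ η)) :
    nu Λ F η ≤ nu Λ K η := av_mono (by fun_prop) (by fun_prop) h

lemma nu_mono (hF : Continuous F) (hK : Continuous K) (h : ∀ x, F x ≤ K x) :
    nu Λ F η ≤ nu Λ K η := nu_mono' Λ η hF hK fun _ => h _

lemma nu_nonneg (h : ∀ x, 0 ≤ F x) : 0 ≤ nu Λ F η := av_nonneg fun _ => h _

lemma nu_pos (hH : Continuous H) : 0 < nu Λ (fun θ => exp (H θ)) η :=
  av_pos (by fun_prop) fun _ => exp_pos _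

lemma cont_nu (hF : Continuous F) : Continuous (nu Λ F) :=
  cont_av (F := fun η σ => F (pw Λ σ η)) (by unfold Function.uncurry; fun_prop)

lemma cont_gam (hH : Continuous H) (hf : Continuous f) : Continuous (gam Λ H f) :=
  (cont_nu Λ (by fun_prop)).div (cont_nu Λ (by fun_prop)) fun η => (nu_pos Λ η hH).ne'

lemma gam_le (hH : Continuous H) {c : ℝ} :
    gam Λ H f η ≤ c ↔ nu Λ (fun θ => f θ * exp (H θ)) η ≤ c * nu Λ (fun θ => exp (H θ)) η :=
  div_le_iff₀ (nu_pos Λ η hH)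

lemma le_gam (hH : Continuous H) {c : ℝ} :
    c ≤ gam Λ H f η ↔ c * nu Λ (fun θ => exp (H θ)) η ≤ nu Λ (fun θ => f θ * exp (H θ)) η :=
  le_div_iff₀ (nu_pos Λ η hH)

lemma gam_add (hH : Continuous H) (hf : Continuous f) (hg : Continuous g) :
    gam Λ H (fun x => f x + g x) η = gam Λ H f η + gam Λ H g η := by
  simp only [gam, add_mul]; rw [nu_add _ _ (by fun_prop) (by fun_prop), add_div]

lemma gam_mul (c : ℝ) : gam Λ H (fun x => c * f x) η = c * gam Λ H f η := by
  simp only [gam, mul_assoc]; rw [nu_mul, mul_div_assoc]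

lemma gam_const (hH : Continuous H) (c : ℝ) : gam Λ H (fun _ => c) η = c := by
  simp only [gam]; rw [nu_mul, mul_div_assoc, div_self (nu_pos Λ η hH).ne', mul_one]

lemma gam_mono (hH : Continuous H) (hf : Continuous f) (hg : Continuous g) (h : ∀ x, f x ≤ g x) :
    gam Λ H f η ≤ gam Λ H g η :=
  div_le_div_of_nonneg_right (nu_mono _ _ (by fun_prop) (by fun_prop) fun x => by
    have := h x; have := exp_pos (H x); gcongr) (nu_pos Λ η hH).le

lemma gam_sum {ι : Type*} (s : Finset ι) {f : ι → Ω → ℝ} (hH : Continuous H)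
    (hf : ∀ i ∈ s, Continuous (f i)) :
    gam Λ H (fun x => ∑ i ∈ s, f i x) η = ∑ i ∈ s, gam Λ H (f i) η := by
  simp only [gam, Finset.sum_mul]
  rw [nu_sum _ _ _ fun i hi => by have := hf i hi; fun_prop, Finset.sum_div]

lemma abs_gam_le (hH : Continuous H) (hf : Continuous f) {c : ℝ} (h : ∀ x, |f x| ≤ c) :
    |gam Λ H f η| ≤ c := by
  rw [abs_le]
  constructor
  · rw [← gam_const Λ η hH (-c)]
    exact gam_mono _ _ hH continuous_const hf fun x => (abs_le.1 (h x)).1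
  · rw [← gam_const Λ η hH c]
    exact gam_mono _ _ hH hf continuous_const fun x => (abs_le.1 (h x)).2

/-- consistency of the averages -/
lemma nu_nu {Q : Finset V} (hQ : Λ ⊆ Q) (hF : Continuous F) : nu Q F η = nu Q (nu Λ F) η := by
  let φ : Ω × Ω →+ Ω :=
    { toFun := fun z => pw Λ z.2 z.1
      map_zero' := by ext x; simp [pw]
      map_add' := fun a b => pw_add _ _ _ _ _ }
  have hφ : Continuous φ := cont_pw Λ continuous_snd continuous_fst
  have h1 := av_hom φ hφ (fun σ => ⟨(σ, σ), by ext x; simp [φ, pw]⟩)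
    (F := fun σ => F (pw Q σ η)) (by fun_prop)
  rw [nu, ← h1, av_prod (by fun_prop)]
  unfold nu
  congr 1; ext σ; congr 1; ext σ'; congr 1; ext x
  by_cases h : x ∈ Λ
  · simp [φ, pw, h, hQ h]
  · simp [φ, pw, h]

/-- a bound valid for every boundary condition on `Λ` is valid in a larger volume -/
lemma gam_le_of_sub {Q : Finset V} (hQ : Λ ⊆ Q) (hH : Continuous H) (hf : Continuous f) {c : ℝ}
    (h : ∀ η', gam Λ H f η' ≤ c) : gam Q H f η ≤ c := by
  rw [gam_le _ _ hH, nu_nu Λ η hQ (by fun_prop), nu_nu Λ η hQ (F := fun θ => exp (H θ))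
    (by fun_prop), ← nu_mul]
  exact nu_mono _ _ (cont_nu _ (by fun_prop)) (continuous_const.mul (cont_nu _ (by fun_prop)))
    fun η' => (gam_le _ _ hH).1 (h η')

/-- stability under a small change of the energy -/
lemma gam_lip {H' : Ω → ℝ} (hH : Continuous H) (hH' : Continuous H') (hf : Continuous f)
    {κ δ : ℝ} (h : ∀ σ, |H (pw Λ σ η) - H' (pw Λ σ η) - κ| ≤ δ) (h1 : ∀ x, |f x| ≤ 1) :
    gam Λ H' f η - 4 * δ ≤ gam Λ H f η := by
  have hδ : 0 ≤ δ := (abs_nonneg _).trans (h 0)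
  have hZ := nu_pos Λ η hH
  have hZ' := nu_pos Λ η hH'
  have a1 : exp (κ - δ) * nu Λ (fun θ => (f θ + 1) * exp (H' θ)) η ≤
      nu Λ (fun θ => (f θ + 1) * exp (H θ)) η := by
    rw [← nu_mul]
    refine nu_mono' _ _ (by fun_prop) (by fun_prop) fun σ => ?_
    have := (abs_le.1 (h σ)).1
    have := (abs_le.1 (h1 (pw Λ σ η))).1
    rw [mul_left_comm, ← exp_add]
    gcongr <;> linarith
  have a2 : nu Λ (fun θ => exp (H θ)) η ≤ exp (κ + δ) * nu Λ (fun θ => exp (H' θ)) η := by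
    rw [← nu_mul]
    refine nu_mono' _ _ (by fun_prop) (by fun_prop) fun σ => ?_
    have := (abs_le.1 (h σ)).2
    rw [← exp_add]
    gcongr; linarith
  have b1 : gam Λ H (fun θ => f θ + 1) η = gam Λ H f η + 1 := by
    rw [gam_add _ _ hH hf continuous_const, gam_const _ _ hH]
  have b2 : gam Λ H' (fun θ => f θ + 1) η = gam Λ H' f η + 1 := by
    rw [gam_add _ _ hH' hf continuous_const, gam_const _ _ hH']
  have b3 := abs_le.1 (abs_gam_le Λ η hH' hf h1)
  have c1 : exp (-(2 * δ)) * (gam Λ H' f η + 1) ≤ gam Λ H f η + 1 := by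
    rw [← b1, ← b2, le_gam _ _ hH]
    refine le_trans ?_ a1
    have p : 0 ≤ gam Λ H' (fun θ => f θ + 1) η := by rw [b2]; linarith [b3.1]
    calc _ ≤ exp (-(2 * δ)) * gam Λ H' (fun θ => f θ + 1) η *
          (exp (κ + δ) * nu Λ (fun θ => exp (H' θ)) η) := by gcongr
      _ = _ := by
        rw [show κ - δ = -(2 * δ) + (κ + δ) by ring, exp_add (-(2 * δ)), gam]; field_simp
  have := add_one_le_exp (-(2 * δ))
  nlinarith [b3.1, b3.2]

end nu

lemma exists_phase (Λ : Finset V) (η : Ω) (χ : Ch) (ψ : A) : ∃ P : Ω → A, Continuous P ∧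
    ∀ u v, χ (pw Λ (u - v) 0) = P u - P v ∧ χ (pw Λ (u + v) η) - ψ = P u + P v := by
  obtain ⟨b, hb⟩ := exists_half (χ (pw Λ 0 η) - ψ)
  refine ⟨fun u => χ (pw Λ u 0) + b, by fun_prop, fun u v => ⟨?_, ?_⟩⟩
  · have := pw_sub Λ u 0 v 0
    rw [sub_zero] at this
    rw [this, map_sub]; beta_reduce; abel
  · have h1 := pw_add Λ (u + v) 0 0 η
    have h2 := pw_add Λ u 0 v 0
    simp only [add_zero, zero_add] at h1 h2
    rw [h1, h2, map_add, map_add, add_sub_assoc, ← hb]; beta_reduce; abel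

/-- the map `(u,v) ↦ (u+v,u-v)` -/
noncomputable def uv : Ω × Ω →+ Ω × Ω where
  toFun z := (z.1 + z.2, z.1 - z.2)
  map_zero' := by simp
  map_add' a b := by ext <;> simp <;> abel

lemma uv_cont : Continuous uv := by
  change Continuous fun z : Ω × Ω => (z.1 + z.2, z.1 - z.2); fun_prop

lemma uv_surj : Function.Surjective uv := fun z => by
  choose h hh using exists_half
  refine ⟨(fun x => z.2 x + h (z.1 x - z.2 x), fun x => h (z.1 x - z.2 x)), ?_⟩
  ext x <;> simp [uv, add_assoc, hh]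

/-- Ginibre's comparison inequality with Pfister's extra parameter -/
lemma gin {ι : Type*} (s : Finset ι) (χ : ι → Ch) (ψ : ι → A) (J₁ J₂ : ι → ℝ)
    (hJ : ∀ i ∈ s, |J₁ i| ≤ J₂ i) (Λ : Finset V) (η : Ω) (m n : Ch) (ψm : A) (l : ℝ)
    (H₁ H₂ : Ω → ℝ) (h₁ : H₁ = fun θ => ∑ i ∈ s, J₁ i * (χ i θ - ψ i).cos)
    (h₂ : H₂ = fun θ => ∑ i ∈ s, J₂ i * (χ i θ).cos) :
    0 ≤ gam Λ H₂ (fun θ => (m θ).cos) 0 - gam Λ H₁ (fun θ => (m θ - ψm).cos) η +
      2 * l * (gam Λ H₂ (fun θ => (m θ).cos * (n θ).cos) 0 * gam Λ H₁ (fun θ => (n θ).cos) η -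
        gam Λ H₁ (fun θ => (m θ - ψm).cos * (n θ).cos) η * gam Λ H₂ (fun θ => (n θ).cos) 0) +
      2 * l ^ 2 := by
  have c₁ : Continuous H₁ := by rw [h₁]; fun_prop
  have c₂ : Continuous H₂ := by rw [h₂]; fun_prop
  choose P hP hP' using fun i => exists_phase Λ η (χ i) (ψ i)
  obtain ⟨M, hM, hM'⟩ := exists_phase Λ η m ψm
  obtain ⟨N, hN, hN'⟩ := exists_phase Λ η n 0
  have k1 := ((Psd.one.exp_sum s (F := fun i u => (P i u).cos) (a := fun i => J₂ i + J₁ i)
    (fun i => by fun_prop) fun i hi => by linarith [(abs_le.1 (hJ i hi)).1]).exp_sum s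
    (F := fun i u => (P i u).sin) (a := fun i => J₂ i - J₁ i)
    (fun i => by fun_prop) fun i hi => by linarith [(abs_le.1 (hJ i hi)).2]).2
    (fun u => (M u).sin * (1 + l * (N u + N u).cos)) (by fun_prop)
  let T : Ω × Ω → ℝ := fun z =>
    ((m (pw Λ z.2 0)).cos - (m (pw Λ z.1 η) - ψm).cos +
      2 * l * (((m (pw Λ z.2 0)).cos - (m (pw Λ z.1 η) - ψm).cos) *
        ((n (pw Λ z.1 η)).cos * (n (pw Λ z.2 0)).cos)) + 2 * l ^ 2) *
      (exp (H₁ (pw Λ z.1 η)) * exp (H₂ (pw Λ z.2 0)))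
  have hT : Continuous T := by fun_prop
  have k2 : 0 ≤ av T := by
    rw [← av_hom uv uv_cont uv_surj hT]
    refine (mul_nonneg zero_le_two k1).trans ?_
    rw [← av_mul]
    refine av_mono (by fun_prop) (hT.comp uv_cont) fun z => ?_
    have e1 : exp (H₁ (pw Λ (z.1 + z.2) η)) * exp (H₂ (pw Λ (z.1 - z.2) 0)) =
        exp (∑ i ∈ s, (J₂ i - J₁ i) * ((P i z.1).sin * (P i z.2).sin)) *
        (exp (∑ i ∈ s, (J₂ i + J₁ i) * ((P i z.1).cos * (P i z.2).cos)) * 1) := by
      rw [mul_one, ← exp_add, ← exp_add, h₁, h₂, ← Finset.sum_add_distrib,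
        ← Finset.sum_add_distrib]
      congr 1
      refine Finset.sum_congr rfl fun i _ => ?_
      rw [(hP' i _ _).1, (hP' i _ _).2, cos_sub', Angle.cos_add]; ring
    have e2 := (hN' z.1 z.2).2
    rw [sub_zero] at e2
    simp only [T, uv, AddMonoidHom.coe_mk, ZeroHom.coe_mk]
    rw [e1, (hM' _ _).1, (hM' _ _).2, (hN' _ _).1, e2, ← mul_assoc]
    refine mul_le_mul_of_nonneg_right ?_ (by positivity)
    have e3 : 2 * ((N z.1 + N z.2).cos * (N z.1 - N z.2).cos) =
        (N z.1 + N z.1).cos + (N z.2 + N z.2).cos := by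
      simp only [cos_sub', Angle.cos_add]
      have := Angle.cos_sq_add_sin_sq (N z.1)
      have := Angle.cos_sq_add_sin_sq (N z.2)
      nlinarith
    have e4 : (M z.1 - M z.2).cos - (M z.1 + M z.2).cos = 2 * ((M z.1).sin * (M z.2).sin) := by
      rw [cos_sub', Angle.cos_add]; ring
    have e5 : (M z.1).sin * (M z.2).sin * ((N z.1 + N z.1).cos * (N z.2 + N z.2).cos) ≤ 1 := by
      refine (le_abs_self _).trans ?_
      simp only [abs_mul]
      exact mul_le_one₀ (mul_le_one₀ (abs_sin_le _) (abs_nonneg _) (abs_sin_le _)) (by positivity)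
        (mul_le_one₀ (abs_cos_le _) (abs_nonneg _) (abs_cos_le _))
    rw [e4]
    have e6 := mul_le_mul_of_nonneg_left e5 (sq_nonneg l)
    have e7 : (N z.1 + N z.2).cos * (N z.1 - N z.2).cos =
      ((N z.1 + N z.1).cos + (N z.2 + N z.2).cos) / 2 := by linarith
    rw [e7]; nlinarith
  have Z₁ := nu_pos Λ η c₁
  have Z₂ := nu_pos Λ 0 c₂
  have k3 : av T = nu Λ (fun θ => exp (H₁ θ)) η * nu Λ (fun θ => (m θ).cos * exp (H₂ θ)) 0 -
      nu Λ (fun θ => (m θ - ψm).cos * exp (H₁ θ)) η * nu Λ (fun θ => exp (H₂ θ)) 0 +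
      2 * l * (nu Λ (fun θ => (n θ).cos * exp (H₁ θ)) η *
          nu Λ (fun θ => (m θ).cos * (n θ).cos * exp (H₂ θ)) 0 -
        nu Λ (fun θ => (m θ - ψm).cos * (n θ).cos * exp (H₁ θ)) η *
          nu Λ (fun θ => (n θ).cos * exp (H₂ θ)) 0) +
      2 * l ^ 2 * (nu Λ (fun θ => exp (H₁ θ)) η * nu Λ (fun θ => exp (H₂ θ)) 0) := by
    simp only [nu, ← av_prod_mul]
    rw [← av_sub (by fun_prop) (by fun_prop), ← av_sub (by fun_prop) (by fun_prop), ← av_mul,
      ← av_mul, ← av_add (by fun_prop) (by fun_prop), ← av_add (by fun_prop) (by fun_prop)]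
    congr 1; ext z; simp only [T]; ring
  have := div_nonneg k2 (mul_pos Z₁ Z₂).le
  rw [k3] at this
  refine this.trans_eq ?_
  simp only [gam]; field_simp

end Pool.Agent.MP_b591f0_mp
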