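import Pool.Agent.MP_b591f0_mp.Lim

/-! From the energy to all continuous observables. -/

open MeasureTheory Real Finset Filter Topology

namespace Pool.Agent.MP_b591f0_mp

variable {β : ℝ} {f g : Ω → ℝ}

/-- neutral characters -/
noncomputable def Bonds : AddSubgroup Ch := AddSubgroup.closure {χ | ∃ b, nn b ∧ χ = ev b.1 - ev b.2}

lemma lm_const (c : ℝ) : lm β (fun _ => c) = c :=
  tendsto_nhds_unique (tend β continuous_const)
    (tendsto_const_nhds.congr fun _ => (gam_const _ _ (cont_Ham _ _) c).symm)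

lemma G1_of_bonds (hβ : 0 < β) {χ : Ch} (h : χ ∈ Bonds) : G1 β χ := by
  have k : ∀ m, G1 β m → G1 β (m + χ) ∧ G1 β (m - χ) := by
    induction h using AddSubgroup.closure_induction with
    | mem χ h => obtain ⟨b, hb, rfl⟩ := h; exact fun m hm => hm.step hβ (G1_bond hβ hb) (lm_pos hβ hb)
    | zero => exact fun m hm => by simpa using hm
    | add a b _ _ ha hb =>
      exact fun m hm => ⟨by rw [← add_assoc]; exact (hb _ (ha m hm).1).1,
        by rw [← sub_sub]; exact (hb _ (ha m hm).2).2⟩
    | neg a _ ha =>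
      exact fun m hm => ⟨by rw [← sub_eq_add_neg]; exact (ha m hm).2,
        by rw [sub_neg_eq_add]; exact (ha m hm).1⟩
  have z : G1 β 0 := fun ε hε => (rare_false β).mono fun ν x hν h => by
    have := hν.1
    have e : ∀ θ : Ω, (0 : Ch) θ = 0 := fun _ => rfl
    simp [e, lm_const, ex] at h
    linarith
  simpa using (k 0 z).1

lemma ev_sub_mem (x : V) : ev x - ev 0 ∈ Bonds := by
  have s : ∀ y e : V, (e = (1, 0) ∨ e = (0, 1)) → (ev y - ev 0 ∈ Bonds ↔ ev (y + e) - ev 0 ∈ Bonds) :=
    fun y e he => by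
    have : ev y - ev (y + e) ∈ Bonds :=
      AddSubgroup.subset_closure ⟨(y, y + e), he.imp (by rintro rfl; rfl) (by rintro rfl; rfl), rfl⟩
    exact ⟨fun h => by simpa using sub_mem h this, fun h => by simpa using add_mem this h⟩
  obtain ⟨a, b⟩ := x
  induction a using Int.induction_on with
  | zero =>
    induction b using Int.induction_on with
    | zero => exact (sub_self (ev 0)).symm ▸ zero_mem _
    | succ b ih => simpa using (s _ _ (.inr rfl)).1 ih
    | pred b ih => exact (s _ _ (.inr rfl)).2 (by simpa using ih)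
  | succ a ih => simpa using (s _ _ (.inl rfl)).1 ih
  | pred a ih => exact (s _ _ (.inl rfl)).2 (by simpa using ih)

lemma bonds_loc {χ : Ch} (h : χ ∈ Bonds) :
    ∃ j, ∀ (g : Ω) (a : A), (∀ x ∈ box j, g x = a) → χ g = 0 := by
  induction h using AddSubgroup.closure_induction with
  | mem χ h =>
    obtain ⟨b, -, rfl⟩ := h
    obtain ⟨j₁, h₁⟩ := exists_box b.1
    obtain ⟨j₂, h₂⟩ := exists_box b.2
    exact ⟨max j₁ j₂, fun g a h => by
      simp [h _ (box_mono (le_max_left _ _) h₁), h _ (box_mono (le_max_right _ _) h₂)]⟩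
  | zero => exact ⟨0, fun _ _ _ => rfl⟩
  | add a b _ _ ha hb =>
    obtain ⟨j₁, h₁⟩ := ha
    obtain ⟨j₂, h₂⟩ := hb
    exact ⟨max j₁ j₂, fun g c h => by
      rw [Ch.add_apply, h₁ g c fun x hx => h x (box_mono (le_max_left _ _) hx),
        h₂ g c fun x hx => h x (box_mono (le_max_right _ _) hx), add_zero]⟩
  | neg a _ ha =>
    obtain ⟨j, h⟩ := ha
    exact ⟨j, fun g c h' => by rw [Ch.neg_apply, h g c h', neg_zero]⟩

/-- the translates of the state agree with the limit state at all but `o(n)` sites -/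
def Good (β : ℝ) (f : Ω → ℝ) : Prop := ∀ ε > 0, Rare β fun ν x => ε < |ex ν x f - lm β f|

lemma Good.add (hf : Good β f) (hg : Good β g) (cf : Continuous f) (cg : Continuous g) :
    Good β fun θ => f θ + g θ := fun ε hε =>
  ((hf _ (half_pos hε)).or (hg _ (half_pos hε))).mono fun ν x hν h => by
    rw [ex_add hν x cf cg, lm_add cf cg, add_sub_add_comm] at h
    by_contra h'
    linarith [abs_add_le (ex ν x f - lm β f) (ex ν x g - lm β g), not_lt.1 (not_or.1 h').1,
      not_lt.1 (not_or.1 h').2]

lemma Good.mul (hf : Good β f) (cf : Continuous f) (c : ℝ) : Good β fun θ => c * f θ :=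
  fun ε hε => (hf (ε / (|c| + 1)) (by positivity)).mono fun ν x _ h => by
    rw [ex_mul, lm_mul _ cf, ← mul_sub, abs_mul] at h
    rw [div_lt_iff₀ (by positivity)]
    nlinarith [abs_nonneg (ex ν x f - lm β f)]

lemma zsmul_ev (d : ℤ) (g : Ω) : (d • ev 0) g = d • g 0 := by
  induction d using Int.induction_on with
  | zero => rw [zero_smul, zero_smul]; rfl
  | succ d ih => rw [add_smul, add_smul, one_smul, one_smul, Ch.add_apply, ih]; rfl
  | pred d ih => rw [sub_smul, sub_smul, one_smul, one_smul, Ch.sub_apply, ih]; rfl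

lemma good_char (hβ : 0 < β) {χ : Ch} (h : χ ∈ Bonds) (d : ℤ) (ψ : A) :
    Good β fun θ => ((χ + d • ev 0) θ - ψ).cos := by
  by_cases hd : d = 0
  · subst hd
    have h1 := G1_of_bonds hβ h
    have e : ∀ ψ : A, (fun θ => (χ θ - ψ).cos) =
        fun θ => ψ.cos * (χ θ).cos + ψ.sin * (χ θ).sin := fun ψ => by
      ext θ; rw [cos_sub']; ring
    simp only [zero_smul, add_zero, e]
    refine (Good.mul (fun ε hε => (h1 ε hε).mono fun ν x hν h => ?_) (by fun_prop) _).add
      (Good.mul (fun ε hε => ?_) (by fun_prop) _) (by fun_prop) (by fun_prop)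
    · have := ex_le_lm hβ.le hν x χ 0
      simp only [sub_zero] at this
      rwa [abs_of_nonpos (sub_nonpos.2 this), neg_sub] at h
    · set t := min 1 (ε / 2)
      have t0 : 0 < t := lt_min one_pos (half_pos hε)
      have t1 : t ≤ 1 := min_le_left _ _
      have t2 : t ≤ ε / 2 := min_le_right _ _
      refine (h1 (t * ε / 4) (by positivity)).mono fun ν x hν h => ?_
      rw [lm_sin, sub_zero] at h
      have k := fun s : ℝ => ex_le_lm hβ.le hν x χ s
      simp only [e] at k
      have k1 := k t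
      have k2 := k (-t)
      rw [ex_add hν x (by fun_prop) (by fun_prop), ex_mul, ex_mul] at k1 k2
      simp only [Angle.cos_coe, Angle.sin_coe, cos_neg, sin_neg] at k1 k2
      have c1 := one_sub_sq_div_two_le_cos (x := t)
      have c2 := cos_le_one t
      have c3 : t / 2 ≤ sin t := by
        have := sin_gt_sub_cube t0
        nlinarith [mul_le_one₀ t1 t0.le t1]
      have c4 := (abs_le.1 (abs_ex_le (f := fun θ => (χ θ).cos) hν x fun θ => abs_cos_le _)).2
      set C := ex ν x fun θ => (χ θ).cos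
      set S := ex ν x fun θ => (χ θ).sin
      have c5 : C - t ^ 2 / 2 ≤ cos t * C := by nlinarith
      have c6 : t / 2 * ε ≤ sin t * |S| := mul_le_mul c3 h.le hε.le (by linarith)
      have c7 : sin t * |S| + cos t * C ≤ lm β fun θ => (χ θ).cos := by
        rcases abs_cases S with h | h <;> rw [h.1] <;> linarith
      have c8 : t / 2 * ε < sin t * |S| := lt_of_lt_of_le (mul_lt_mul_of_pos_left h (half_pos t0))
        (mul_le_mul_of_nonneg_right c3 (abs_nonneg _))
      nlinarith
  · obtain ⟨j, hj⟩ := bonds_loc h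
    have nz : NZ (χ + d • ev 0) := ⟨j, d, hd, fun g a hg => by
      rw [Ch.add_apply, hj g a hg, zero_add, ← hg 0 (by simp [mem_box])]; exact zsmul_ev d g⟩
    exact fun ε hε => (rare_false β).mono fun ν x hν h => by
      rw [nz.ex hβ.le hν, nz.lm hβ.le] at h
      simp at h; linarith

theorem good_all (hβ : 0 < β) (hf : Continuous f) : Good β f := by
  let S : Set C(Ω, ℝ) := {F | ∃ χ ∈ Bonds, ∃ (d : ℤ) (ψ : A), ⇑F = fun θ => ((χ + d • ev 0) θ - ψ).cos}
  have mk : ∀ χ ∈ Bonds, ∀ (d : ℤ) (ψ : A),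
      (⟨fun θ => ((χ + d • ev 0) θ - ψ).cos, by fun_prop⟩ : C(Ω, ℝ)) ∈ Submodule.span ℝ S :=
    fun χ h d ψ => Submodule.subset_span ⟨χ, h, d, ψ, rfl⟩
  let 𝒜 : Subalgebra ℝ C(Ω, ℝ) := (Submodule.span ℝ S).toSubalgebra
    (by convert mk 0 (zero_mem _) 0 0 using 1; ext θ; simp) (by
      intro F G hF hG
      induction hF using Submodule.span_induction with
      | zero => simp
      | add a b _ _ ha hb => rw [add_mul]; exact add_mem ha hb
      | smul c a _ ha => rw [smul_mul_assoc]; exact Submodule.smul_mem _ c ha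
      | mem F hF =>
        induction hG using Submodule.span_induction with
        | zero => simp
        | add a b _ _ ha hb => rw [mul_add]; exact add_mem ha hb
        | smul c a _ ha => rw [mul_smul_comm]; exact Submodule.smul_mem _ c ha
        | mem G hG =>
          obtain ⟨χ, h, d, ψ, e⟩ := hF
          obtain ⟨χ', h', d', ψ', e'⟩ := hG
          convert Submodule.smul_mem _ (1 / 2 : ℝ) (add_mem (mk _ (add_mem h h') (d + d') (ψ + ψ'))
            (mk _ (sub_mem h h') (d - d') (ψ - ψ')))
          ext θ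
          have a1 : (χ + χ' + (d + d') • ev 0) θ - (ψ + ψ') =
              ((χ + d • ev 0) θ - ψ) + ((χ' + d' • ev 0) θ - ψ') := by
            rw [show χ + χ' + (d + d') • ev 0 = (χ + d • ev 0) + (χ' + d' • ev 0) by module,
              Ch.add_apply]; abel
          have a2 : (χ - χ' + (d - d') • ev 0) θ - (ψ - ψ') =
              ((χ + d • ev 0) θ - ψ) - ((χ' + d' • ev 0) θ - ψ') := by
            rw [show χ - χ' + (d - d') • ev 0 = (χ + d • ev 0) - (χ' + d' • ev 0) by module,
              Ch.sub_apply]; abel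
          simp only [ContinuousMap.mul_apply, e, e', ContinuousMap.smul_apply,
            ContinuousMap.add_apply, ContinuousMap.coe_mk, a1, a2, smul_eq_mul]
          rw [Angle.cos_add, cos_sub' ((χ + d • ev 0) θ - ψ)]; ring)
  have sep : 𝒜.SeparatesPoints := fun θ θ' hne => by
    obtain ⟨x, hx⟩ := Function.ne_iff.1 hne
    refine ⟨_, ⟨_, mk _ (ev_sub_mem x) 1 (θ x), rfl⟩, fun h => hx ?_⟩
    simp only [one_smul, sub_add_cancel, ContinuousMap.coe_mk, ev_apply, sub_self] at h
    rcases Angle.cos_eq_iff_eq_or_eq_neg.1 h with h | h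
    · exact (sub_eq_zero.1 h.symm).symm
    · exact (sub_eq_zero.1 (neg_eq_zero.1 h.symm)).symm
  have gd : ∀ F ∈ Submodule.span ℝ S, Good β F := fun F hF => by
    induction hF using Submodule.span_induction with
    | zero =>
      refine fun ε hε => (rare_false β).mono fun ν x _ h => ?_
      have : lm β (0 : C(Ω, ℝ)) = 0 := lm_const 0
      rw [this] at h
      simp [ex] at h; linarith
    | add a b _ _ ha hb => exact ha.add hb a.continuous b.continuous
    | smul c a _ ha => exact ha.mul a.continuous c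
    | mem F hF => obtain ⟨χ, h, d, ψ, e⟩ := hF; rw [e]; exact good_char hβ h d ψ
  intro ε hε
  obtain ⟨G, hG⟩ := ContinuousMap.exists_mem_subalgebra_near_continuous_of_separatesPoints 𝒜 sep f
    hf (ε / 3) (by positivity)
  refine (gd G G.2 (ε / 3) (by positivity)).mono fun ν x hν h => ?_
  have cG := G.1.continuous
  have e : f = fun θ => G.1 θ + (f θ - G.1 θ) := by ext; ring
  have b : ∀ θ, |f θ - G.1 θ| ≤ ε / 3 := fun θ => by rw [abs_sub_comm]; exact (hG θ).le
  rw [e, ex_add hν x cG (by fun_prop), lm_add cG (by fun_prop), add_sub_add_comm] at h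
  have h1 := abs_ex_le hν x b
  have h2 := abs_lm_le (β := β) (f := fun θ => f θ - G.1 θ) (hf.sub cG) b
  have h3 := abs_add_le (ex ν x G.1 - lm β G.1)
    (ex ν x (fun θ => f θ - G.1 θ) - lm β fun θ => f θ - G.1 θ)
  have h4 := abs_sub (ex ν x (fun θ => f θ - G.1 θ)) (lm β fun θ => f θ - G.1 θ)
  linarith

end Pool.Agent.MP_b591f0_mp
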