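import Pool.Agent.MP_b591f0_mp.Cut

/-! The square lattice: edges, boxes, translations, the Mermin-Wagner bound. -/

open MeasureTheory Real Finset

namespace Pool.Agent.MP_b591f0_mp

/-- nearest-neighbour edges -/
def nn (b : V × V) : Prop := b.2 = b.1 + (1, 0) ∨ b.2 = b.1 + (0, 1)

/-- edges meeting `Λ` -/
def Ed (Λ : Finset V) : Finset (V × V) :=
  ({(1, 0), (0, 1)} : Finset V).biUnion fun e => (Λ ∪ Λ.image (· - e)).image fun x => (x, x + e)

lemma mem_Ed {Λ : Finset V} {b : V × V} : b ∈ Ed Λ ↔ nn b ∧ (b.1 ∈ Λ ∨ b.2 ∈ Λ) := by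
  obtain ⟨x, y⟩ := b
  simp only [Ed, nn, mem_biUnion, mem_image, mem_union, mem_insert, mem_singleton, Prod.mk.injEq]
  constructor
  · rintro ⟨e, he, z, hz, rfl, rfl⟩
    refine ⟨by rcases he with rfl | rfl <;> simp, hz.imp id ?_⟩
    rintro ⟨w, hw, rfl⟩; simpa using hw
  · rintro ⟨h | h, h'⟩ <;> subst h
    · exact ⟨_, Or.inl rfl, x, h'.imp id fun h => ⟨_, h, by simp⟩, rfl, rfl⟩
    · exact ⟨_, Or.inr rfl, x, h'.imp id fun h => ⟨_, h, by simp⟩, rfl, rfl⟩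

lemma card_Ed (Λ : Finset V) : #(Ed Λ) ≤ 4 * #Λ := by
  refine card_biUnion_le.trans ((sum_le_sum (g := fun _ => 2 * #Λ) fun e _ => ?_).trans ?_)
  · refine card_image_le.trans ((card_union_le _ _).trans ?_)
    have := card_image_le (s := Λ) (f := (· - e))
    omega
  · rw [sum_const, card_pair (by decide)]; simp; omega

lemma sum_Ed (Λ : Finset V) (f : V × V → ℝ) : ∑ b ∈ Ed Λ, f b =
    ∑ e ∈ ({(1, 0), (0, 1)} : Finset V), ∑ x ∈ Λ ∪ Λ.image (· - e), f (x, x + e) := by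
  rw [Ed, sum_biUnion]
  · exact sum_congr rfl fun e _ => sum_image fun x _ y _ h => congrArg Prod.fst h
  · intro e _ e' _ h
    simp only [Function.onFun, disjoint_left, mem_image]
    rintro _ ⟨x, -, rfl⟩ ⟨y, -, h'⟩
    obtain ⟨rfl, h2⟩ := Prod.mk.inj h'
    exact h (add_left_cancel h2).symm

/-- `β` times the energy of the edges meeting `Λ` -/
noncomputable def Ham (β : ℝ) (Λ : Finset V) (θ : Ω) : ℝ := ∑ b ∈ Ed Λ, β * (θ b.1 - θ b.2).cos

@[fun_prop] lemma cont_Ham (β : ℝ) (Λ : Finset V) : Continuous (Ham β Λ) := by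
  unfold Ham; fun_prop

lemma Ham_sub (β : ℝ) {Λ Q : Finset V} (h : Λ ⊆ Q) (η : Ω) :
    ∃ κ, ∀ σ, Ham β Q (pw Λ σ η) = Ham β Λ (pw Λ σ η) + κ := by
  have hs : Ed Λ ⊆ Ed Q := fun b hb => by
    rw [mem_Ed] at hb ⊢; exact ⟨hb.1, hb.2.imp (@h _) (@h _)⟩
  refine ⟨∑ b ∈ Ed Q \ Ed Λ, β * (η b.1 - η b.2).cos, fun σ => ?_⟩
  rw [Ham, ← sum_sdiff hs, add_comm, Ham]
  congr 1
  refine sum_congr rfl fun b hb => ?_
  simp only [mem_sdiff, mem_Ed, not_and, not_or] at hb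
  have := hb.2 hb.1.1
  simp [pw, this.1, this.2]

/-- the box `[-n,n]²` -/
noncomputable def box (n : ℕ) : Finset V := Icc (-(n : ℤ), -(n : ℤ)) (n, n)

lemma mem_box {n : ℕ} {x : V} : x ∈ box n ↔ -(n : ℤ) ≤ x.1 ∧ x.1 ≤ n ∧ -(n : ℤ) ≤ x.2 ∧ x.2 ≤ n := by
  simp only [box, mem_Icc, Prod.le_def]; tauto

lemma card_box (n : ℕ) : #(box n) = (2 * n + 1) ^ 2 := by
  rw [box, card_Icc_prod, Int.card_Icc, sq]
  have : ((n : ℤ) + 1 - -n).toNat = 2 * n + 1 := by omega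
  rw [this]

lemma box_mono {n m : ℕ} (h : n ≤ m) : box n ⊆ box m := fun x => by
  simp only [mem_box]; omega

lemma card_shell (p k : ℕ) : #(box (p + k) \ box p) = 2 * k * (4 * p + 2 * k + 2) := by
  have := card_sdiff_add_card_eq_card (box_mono (Nat.le_add_right p k))
  rw [card_box, card_box] at this
  nlinarith

lemma exists_box (x : V) : ∃ j, x ∈ box j :=
  ⟨x.1.natAbs + x.2.natAbs, by simp only [mem_box]; omega⟩

/-- translation of configurations -/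
def tr (x : V) (θ : Ω) : Ω := fun y => θ (y + x)

@[fun_prop] lemma cont_tr (x : V) : Continuous (tr x) := by unfold tr; fun_prop

/-- translation of finite sets -/
def sh (x : V) (Λ : Finset V) : Finset V := Λ.image (· + x)

lemma mem_sh {x y : V} {Λ : Finset V} : y ∈ sh x Λ ↔ y - x ∈ Λ := by
  simp only [sh, mem_image]
  exact ⟨by rintro ⟨z, hz, rfl⟩; simpa using hz, fun h => ⟨_, h, by simp⟩⟩

lemma Ham_tr (β : ℝ) (x : V) (Λ : Finset V) (θ : Ω) : Ham β (sh x Λ) θ = Ham β Λ (tr x θ) := by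
  refine sum_nbij' (fun b => (b.1 - x, b.2 - x)) (fun b => (b.1 + x, b.2 + x)) ?_ ?_ ?_ ?_ ?_ <;>
    simp only [mem_coe, mem_Ed, mem_sh, nn, tr, add_sub_cancel_right, sub_add_cancel]
  · rintro b ⟨h, h'⟩
    refine ⟨h.imp ?_ ?_, h'⟩ <;> intro h <;> rw [h] <;> abel
  · rintro b ⟨h, h'⟩
    refine ⟨h.imp ?_ ?_, h'⟩ <;> intro h <;> rw [h] <;> abel
  all_goals simp

lemma nu_tr (x : V) (Λ : Finset V) {F : Ω → ℝ} (hF : Measurable F) (η : Ω) :
    nu (sh x Λ) (fun θ => F (tr x θ)) η = nu Λ F (tr x η) := by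
  let φ : Ω →+ Ω := { toFun := tr x, map_zero' := rfl, map_add' := fun _ _ => rfl }
  have h := hp_hom φ (cont_tr x) fun θ => ⟨tr (-x) θ, by ext y; simp [φ, tr]⟩
  have hm : Measurable fun σ => F (pw Λ σ (tr x η)) := hF.comp (by fun_prop : Continuous _).measurable
  have e := integral_map (μ := hp Ω) h.measurable.aemeasurable hm.aestronglyMeasurable
  rw [h.map_eq] at e
  unfold nu av
  rw [e]
  refine congrArg _ (funext fun σ => congrArg F (funext fun y => ?_))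
  simp [φ, tr, pw, mem_sh]

lemma gam_tr (β : ℝ) (x : V) (Λ : Finset V) {f : Ω → ℝ} (hf : Measurable f) (η : Ω) :
    gam (sh x Λ) (Ham β (sh x Λ)) (fun θ => f (tr x θ)) η = gam Λ (Ham β Λ) f (tr x η) := by
  have h : Measurable fun θ => exp (Ham β Λ θ) := (by fun_prop : Continuous _).measurable
  simp only [gam, Ham_tr]
  rw [nu_tr x Λ (F := fun θ => f θ * exp (Ham β Λ θ)) (hf.mul h), nu_tr x Λ h]

/-- coordinate characters -/
noncomputable def ev (x : V) : Ch :=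
  ⟨Pi.evalAddMonoidHom (fun _ : V => A) x, continuous_apply x⟩

@[simp] lemma ev_apply (x : V) (θ : Ω) : ev x θ = θ x := rfl

@[simp] lemma Ch.sub_apply (χ χ' : Ch) (θ : Ω) : (χ - χ') θ = χ θ - χ' θ := rfl
@[simp] lemma Ch.add_apply (χ χ' : Ch) (θ : Ω) : (χ + χ') θ = χ θ + χ' θ := rfl
@[simp] lemma Ch.neg_apply (χ : Ch) (θ : Ω) : (-χ) θ = -χ θ := rfl

lemma nu_shift (Λ : Finset V) (η g : Ω) (hg : ∀ x ∉ Λ, g x = 0) (F : Ω → ℝ) :
    nu Λ (fun θ => F (θ + g)) η = nu Λ F η := by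
  rw [nu, nu, ← av_shift g fun σ => F (pw Λ σ η)]
  congr 1; ext σ; congr 1; ext x
  by_cases h : x ∈ Λ <;> simp [pw, h, hg]

lemma mw_aux {β : ℝ} (hβ : 0 ≤ β) (Λ : Finset V) (η : Ω) (g : V → ℝ) (hg : ∀ x ∉ Λ, g x = 0)
    (χ : Ch) (hχ : χ (fun x => (g x : A)) = (π : A)) (ψ : A) {c : ℝ}
    (hc : β * ∑ b ∈ Ed Λ, (g b.1 - g b.2) ^ 2 ≤ 2 * c) :
    gam Λ (Ham β Λ) (fun θ => (χ θ - ψ).cos) η ≤ exp c - 1 := by
  set G : Ω := fun x => (g x : A) with hG
  let F : Ω → ℝ := fun θ => (1 - (χ θ - ψ).cos) * exp (Ham β Λ θ)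
  have cF : Continuous F := by fun_prop
  have h1 := nu_shift Λ η G (fun x hx => by simp [hG, hg x hx]) F
  have h2 := nu_shift Λ η (-G) (fun x hx => by simp [hG, hg x hx]) F
  have h3 : nu Λ (fun θ => (1 + (χ θ - ψ).cos) * exp (Ham β Λ θ)) η ≤ exp c * nu Λ F η := by
    have : exp c * nu Λ F η = nu Λ (fun θ => exp c / 2 * (F (θ + G) + F (θ + -G))) η := by
      rw [nu_mul, nu_add _ _ (by fun_prop) (by fun_prop), h1, h2]; ring
    rw [this]
    refine nu_mono _ _ (by fun_prop) (by fun_prop) fun θ => ?_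
    have e1 : (χ (θ + G) - ψ).cos = -(χ θ - ψ).cos := by
      rw [map_add, hχ, add_sub_right_comm, Angle.cos_add_pi]
    have e2 : (χ (θ + -G) - ψ).cos = -(χ θ - ψ).cos := by
      rw [map_add, map_neg, hχ, Angle.neg_coe_pi, add_sub_right_comm, Angle.cos_add_pi]
    have e3 : 2 * Ham β Λ θ - 2 * c ≤ Ham β Λ (θ + G) + Ham β Λ (θ + -G) := by
      simp only [Ham, mul_sum, ← sum_add_distrib] at hc ⊢
      rw [sub_le_comm]
      refine le_trans ?_ hc
      rw [← sum_sub_distrib]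
      refine sum_le_sum fun b _ => ?_
      have a1 : (θ + G) b.1 - (θ + G) b.2 = θ b.1 - θ b.2 + (g b.1 - g b.2 : ℝ) := by
        simp [hG]; abel
      have a2 : (θ + -G) b.1 - (θ + -G) b.2 = θ b.1 - θ b.2 - (g b.1 - g b.2 : ℝ) := by
        simp [hG]; abel
      rw [a1, a2, Angle.cos_add, cos_sub' _ ((g b.1 - g b.2 : ℝ) : A), Angle.cos_coe]
      have := one_sub_sq_div_two_le_cos (x := g b.1 - g b.2)
      have a3 := cos_le_one (g b.1 - g b.2)
      have a4 := (abs_le.1 (abs_cos_le (θ b.1 - θ b.2))).2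
      nlinarith [mul_nonneg hβ (mul_nonneg (sub_nonneg.2 a4) (sub_nonneg.2 a3))]
    simp only [F, e1, e2, sub_neg_eq_add]
    have a := exp_tan (Ham β Λ θ - c) (Ham β Λ (θ + G))
    have b := exp_tan (Ham β Λ θ - c) (Ham β Λ (θ + -G))
    have p := exp_pos (Ham β Λ θ - c)
    have q : 0 ≤ 1 + (χ θ - ψ).cos := by linarith [(abs_le.1 (abs_cos_le (χ θ - ψ))).1]
    have r : 2 * exp (Ham β Λ θ - c) ≤ exp (Ham β Λ (θ + G)) + exp (Ham β Λ (θ + -G)) := by
      nlinarith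
    have s : exp (Ham β Λ θ) = exp c * exp (Ham β Λ θ - c) := by rw [← exp_add]; ring_nf
    rw [s, ← mul_add]
    nlinarith [mul_le_mul_of_nonneg_left r (mul_nonneg q (exp_pos c).le)]
  simp only [F, add_mul, sub_mul, one_mul] at h3
  rw [nu_add _ _ (by fun_prop) (by fun_prop), nu_sub _ _ (by fun_prop) (by fun_prop)] at h3
  rw [gam_le _ _ (cont_Ham β Λ)]
  have Z := nu_pos Λ η (cont_Ham β Λ)
  have c0 : 1 ≤ exp c := one_le_exp (by
    have : 0 ≤ β * ∑ b ∈ Ed Λ, (g b.1 - g b.2) ^ 2 := by positivity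
    linarith)
  rcases le_total 0 (nu Λ (fun θ => (χ θ - ψ).cos * exp (Ham β Λ θ)) η) with h | h <;> nlinarith

lemma cutoff1 (R : ℕ) (hR : 0 < R) : ∃ g : V → ℝ, (∀ x ∈ box R, g x = 1) ∧
    (∀ x ∉ box (2 * R), g x = 0) ∧ ∀ F : Finset (V × V), (∀ b ∈ F, nn b) →
      ∑ b ∈ F, (g b.1 - g b.2) ^ 2 ≤ 100 := by
  let k : V → ℤ := fun x => max 0 (min R (2 * R - max |x.1| |x.2|))
  have R0 : (0 : ℝ) < R := by exact_mod_cast hR
  have k0 : ∀ x ∉ box (2 * R), k x = 0 := fun x hx => by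
    simp only [mem_box, k, abs_eq_max_neg] at hx ⊢; omega
  refine ⟨fun x => k x / R, fun x hx => ?_, fun x hx => by simp [k0 x hx], fun F hF => ?_⟩
  · have : k x = R := by simp only [mem_box, k, abs_eq_max_neg] at hx ⊢; omega
    simp [this, R0.ne']
  · have h1 : ∀ b ∈ F, ((k b.1 : ℝ) / R - k b.2 / R) ^ 2 ≤
        if b ∈ Ed (box (2 * R)) then 1 / (R : ℝ) ^ 2 else 0 := fun b hb => by
      split_ifs with h
      · rw [← sub_div, div_pow]
        gcongr
        have : -1 ≤ k b.1 - k b.2 ∧ k b.1 - k b.2 ≤ 1 := by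
          rcases hF b hb with e | e <;>
            simp only [k, e, abs_eq_max_neg, Prod.fst_add, Prod.snd_add] <;> omega
        have : (k b.1 - k b.2) ^ 2 ≤ 1 := by nlinarith
        exact_mod_cast this
      · simp only [mem_Ed, hF b hb, true_and, not_or] at h
        simp [k0 _ h.1, k0 _ h.2]
    refine (sum_le_sum h1).trans ?_
    rw [← sum_filter, sum_const, nsmul_eq_mul, mul_one_div, div_le_iff₀ (by positivity)]
    have : #(F.filter (· ∈ Ed (box (2 * R)))) ≤ 100 * R ^ 2 :=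
      (card_le_card fun b hb => (mem_filter.1 hb).2).trans ((card_Ed _).trans (by
        rw [card_box]; nlinarith))
    exact_mod_cast this

lemma cutoff (j L : ℕ) : ∃ K, j ≤ K ∧ ∃ g : V → ℝ, (∀ x ∈ box j, g x = L) ∧
    (∀ x ∉ box K, g x = 0) ∧ ∀ F : Finset (V × V), (∀ b ∈ F, nn b) →
      ∑ b ∈ F, (g b.1 - g b.2) ^ 2 ≤ 100 * L := by
  induction L with
  | zero => exact ⟨j, le_rfl, fun _ => 0, by simp, by simp, by simp⟩
  | succ L ih =>
    obtain ⟨K, hK, g, h1, h2, h3⟩ := ih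
    obtain ⟨g', k1, k2, k3⟩ := cutoff1 (K + 1) K.succ_pos
    refine ⟨2 * (K + 1), by omega, fun x => g x + g' x, fun x hx => ?_, fun x hx => ?_,
      fun F hF => ?_⟩
    · simp [h1 x hx, k1 x (box_mono (by omega) hx)]
    · simp [k2 x hx, h2 x fun h => hx (box_mono (by omega) h)]
    · have : ∀ b ∈ F, (g b.1 + g' b.1 - (g b.2 + g' b.2)) ^ 2 =
          (g b.1 - g b.2) ^ 2 + (g' b.1 - g' b.2) ^ 2 := fun b hb => by
        by_cases h : b.1 ∈ box K ∨ b.2 ∈ box K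
        · have : b.1 ∈ box (K + 1) ∧ b.2 ∈ box (K + 1) := by
            rcases hF b hb with e | e <;>
              simp only [mem_box, e, Prod.fst_add, Prod.snd_add] at h ⊢ <;> omega
          rw [k1 _ this.1, k1 _ this.2]; ring
        · rw [h2 _ (not_or.1 h).1, h2 _ (not_or.1 h).2]; ring
      rw [sum_congr rfl this, sum_add_distrib]
      have := h3 F hF
      have := k3 F hF
      push_cast; linarith

/-- Mermin-Wagner for a character of nonzero degree -/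
lemma mw {β : ℝ} (hβ : 0 ≤ β) (χ : Ch) (j : ℕ) {d : ℤ} (hd : d ≠ 0)
    (hχ : ∀ (g : Ω) (a : A), (∀ x ∈ box j, g x = a) → χ g = d • a) {ε : ℝ} (hε : 0 < ε) :
    ∃ K₀, ∀ K ≥ K₀, ∀ ψ η, gam (box K) (Ham β (box K)) (fun θ => (χ θ - ψ).cos) η ≤ ε := by
  have hl : 0 < log (1 + ε) := log_pos (by linarith)
  obtain ⟨L, hL⟩ := exists_nat_gt (β * π ^ 2 * 100 / (2 * log (1 + ε)))
  have L0 : (0 : ℝ) < L := lt_of_le_of_lt (by positivity) hL
  have d0 : (d : ℝ) ≠ 0 := by exact_mod_cast hd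
  obtain ⟨K₀, -, g, h1, h2, h3⟩ := cutoff j L
  refine ⟨K₀, fun K hK ψ η => ?_⟩
  have := mw_aux hβ (box K) η (fun x => π / (d * L) * g x)
    (fun x hx => by simp [h2 x fun h => hx (box_mono hK h)]) χ (by
      rw [hχ _ (π / d : ℝ) fun x hx => by rw [h1 x hx]; congr 1; field_simp, ← Angle.coe_zsmul]
      congr 1; rw [zsmul_eq_mul]; field_simp) ψ (c := log (1 + ε)) (by
      simp only [← mul_sub, mul_pow, ← mul_sum]
      have h4 := h3 (Ed (box K)) fun b hb => (mem_Ed.1 hb).1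
      have h5 : (1 : ℝ) ≤ d ^ 2 := by
        have : (1 : ℤ) ≤ d ^ 2 := by nlinarith [Int.one_le_abs hd, sq_abs d]
        exact_mod_cast this
      rw [div_lt_iff₀ (by positivity)] at hL
      calc _ ≤ β * ((π / (d * L)) ^ 2 * (100 * L)) := by gcongr
        _ = β * π ^ 2 * 100 / (d ^ 2 * L) := by field_simp
        _ ≤ _ := by
          rw [div_le_iff₀ (by positivity)]
          nlinarith [mul_pos hl L0])
  rwa [exp_log (by linarith), add_sub_cancel_left] at this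

end Pool.Agent.MP_b591f0_mp
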