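import Pool.Agent.MP_b591f0_mp.FV

/-! Infinite-volume states on the torus of configurations: defects are rare. -/

open MeasureTheory Real Finset Filter Topology

namespace Pool.Agent.MP_b591f0_mp

open scoped Classical

/-- the DLR equations for continuous observables -/
def DLR (β : ℝ) (ν : Measure Ω) : Prop := IsProbabilityMeasure ν ∧
  ∀ (Λ : Finset V) (f : Ω → ℝ), Continuous f → ∫ θ, f θ ∂ν = ∫ η, gam Λ (Ham β Λ) f η ∂ν

/-- the plus state in a box -/
noncomputable def pl (β : ℝ) (K : ℕ) (f : Ω → ℝ) : ℝ := gam (box K) (Ham β (box K)) f 0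

/-- a limit of the plus states -/
noncomputable def lm (β : ℝ) (f : Ω → ℝ) : ℝ := limUnder (hyperfilter ℕ) fun K => pl β K f

/-- expectation of a translated observable -/
noncomputable def ex (ν : Measure Ω) (x : V) (f : Ω → ℝ) : ℝ := ∫ θ, f (tr x θ) ∂ν

variable {β : ℝ} {ν : Measure Ω} {f g : Ω → ℝ}

lemma tend (β : ℝ) (hf : Continuous f) :
    Tendsto (fun K => pl β K f) (hyperfilter ℕ) (𝓝 (lm β f)) := by
  obtain ⟨C, hC⟩ := (isCompact_univ (X := Ω)).exists_bound_of_continuousOn hf.continuousOn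
  obtain ⟨c, -, hc⟩ := (isCompact_Icc (a := -C) (b := C)).ultrafilter_le_nhds
    ((hyperfilter ℕ).map fun K => pl β K f) (by
      rw [Ultrafilter.coe_map, le_principal_iff, Filter.mem_map]
      exact Eventually.of_forall fun K =>
        abs_le.1 (abs_gam_le _ _ (cont_Ham _ _) hf fun θ => hC θ (Set.mem_univ _)))
  exact tendsto_nhds_limUnder ⟨c, hc⟩

lemma ev_ge (K₀ : ℕ) : ∀ᶠ K in (hyperfilter ℕ : Filter ℕ), K₀ ≤ K :=
  Nat.hyperfilter_le_atTop (eventually_ge_atTop K₀)

lemma lm_add (hf : Continuous f) (hg : Continuous g) :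
    lm β (fun θ => f θ + g θ) = lm β f + lm β g :=
  tendsto_nhds_unique (tend β (hf.add hg)) (by
    simpa only [pl, gam_add _ _ (cont_Ham _ _) hf hg] using (tend β hf).add (tend β hg))

lemma lm_mul (c : ℝ) (hf : Continuous f) : lm β (fun θ => c * f θ) = c * lm β f :=
  tendsto_nhds_unique (tend β (continuous_const.mul hf)) (by
    simpa only [pl, gam_mul] using (tend β hf).const_mul c)

lemma abs_lm_le (hf : Continuous f) {c : ℝ} (h : ∀ θ, |f θ| ≤ c) : |lm β f| ≤ c :=
  le_of_tendsto' (tend β hf).abs fun _ => abs_gam_le _ _ (cont_Ham _ _) hf h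

lemma ex_add (hν : DLR β ν) (x : V) (hf : Continuous f) (hg : Continuous g) :
    ex ν x (fun θ => f θ + g θ) = ex ν x f + ex ν x g := by
  have := hν.1
  exact integral_add (cint (by fun_prop) _) (cint (by fun_prop) _)

lemma ex_mul (x : V) (c : ℝ) : ex ν x (fun θ => c * f θ) = c * ex ν x f := integral_const_mul _ _

lemma abs_ex_le (hν : DLR β ν) (x : V) {c : ℝ} (h : ∀ θ, |f θ| ≤ c) : |ex ν x f| ≤ c := by
  have := hν.1
  simpa [ex] using norm_integral_le_of_norm_le_const (μ := ν) (f := fun θ => f (tr x θ)) (C := c)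
    (Eventually.of_forall fun θ => h _)

lemma ex_eq (hν : DLR β ν) (x : V) (Λ : Finset V) (hf : Continuous f) :
    ex ν x f = ∫ η, gam Λ (Ham β Λ) f (tr x η) ∂ν := by
  rw [ex, hν.2 (sh x Λ) _ (by fun_prop)]
  simp only [gam_tr β x Λ hf.measurable]

lemma int_ineq [IsProbabilityMeasure ν] {a b c : Ω → ℝ} (ha : Continuous a) (hb : Continuous b)
    (hc : Continuous c) {p q r s u : ℝ} (h : ∀ η, 0 ≤ p - a η + q * (r * b η - c η * s) + u) :
    0 ≤ p - ∫ η, a η ∂ν + q * (r * ∫ η, b η ∂ν - (∫ η, c η ∂ν) * s) + u := by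
  have i : 0 ≤ ∫ η, p - a η + q * (r * b η - c η * s) + u ∂ν := integral_nonneg h
  rw [integral_add (cint (by fun_prop) _) (integrable_const _),
    integral_add (cint (by fun_prop) _) (cint (by fun_prop) _),
    integral_sub (integrable_const _) (cint ha _), integral_const_mul,
    integral_sub (cint (by fun_prop) _) (cint (by fun_prop) _), integral_const_mul,
    integral_mul_const] at i
  simpa using i

lemma key1 (hβ : 0 ≤ β) (hν : DLR β ν) (x : V) (m n : Ch) (ψ : A) (l : ℝ) :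
    0 ≤ lm β (fun θ => (m θ).cos) - ex ν x (fun θ => (m θ - ψ).cos) +
      2 * l * (lm β (fun θ => (m θ).cos * (n θ).cos) * ex ν x (fun θ => (n θ).cos) -
        ex ν x (fun θ => (m θ - ψ).cos * (n θ).cos) * lm β (fun θ => (n θ).cos)) + 2 * l ^ 2 := by
  have := hν.1
  refine ge_of_tendsto' (((((tend β (by fun_prop)).sub_const _).add
    ((((tend β (by fun_prop)).mul_const _).sub ((tend β (by fun_prop)).const_mul _)).const_mul
      _))).add_const _) fun K => ?_
  rw [ex_eq hν x (box K) (by fun_prop), ex_eq hν x (box K) (by fun_prop),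
    ex_eq hν x (box K) (by fun_prop)]
  have c := fun (f : Ω → ℝ) (hf : Continuous f) =>
    (cont_gam (box K) (cont_Ham β (box K)) hf).comp (cont_tr x)
  exact int_ineq (c _ (by fun_prop)) (c _ (by fun_prop)) (c _ (by fun_prop)) fun η =>
    gin (Ed (box K)) (fun b => ev b.1 - ev b.2)
      (fun _ => 0) (fun _ => β) (fun _ => β) (fun _ _ => (abs_of_nonneg hβ).le) (box K) (tr x η)
      m n ψ l (Ham β (box K)) (Ham β (box K)) (by ext θ; simp [Ham]) (by ext θ; simp [Ham])

/-- characters of nonzero degree -/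
def NZ (χ : Ch) : Prop :=
  ∃ (j : ℕ) (d : ℤ), d ≠ 0 ∧ ∀ (g : Ω) (a : A), (∀ x ∈ box j, g x = a) → χ g = d • a

lemma cos_pi' (χ : Ch) (ψ : A) :
    (fun θ => (χ θ - (ψ + π)).cos) = fun θ => -1 * (χ θ - ψ).cos := by
  ext θ; rw [← sub_sub, Angle.cos_sub_pi]; ring

lemma NZ.ex (hβ : 0 ≤ β) {χ : Ch} (h : NZ χ) (hν : DLR β ν) (x : V) (ψ : A) :
    ex ν x (fun θ => (χ θ - ψ).cos) = 0 := by
  have := hν.1
  obtain ⟨j, d, hd, h⟩ := h
  have k : ∀ ψ, Pool.Agent.MP_b591f0_mp.ex ν x (fun θ => (χ θ - ψ).cos) ≤ 0 := fun ψ =>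
    le_of_forall_pos_le_add fun ε hε => by
      obtain ⟨K, hK⟩ := mw hβ χ j hd h hε
      rw [ex_eq hν x (box K) (by fun_prop)]
      simpa using integral_mono (cint ((cont_gam (box K) (cont_Ham β (box K))
        (f := fun θ => (χ θ - ψ).cos) (by fun_prop)).comp (cont_tr x)) ν) (integrable_const ε)
        fun η => hK K le_rfl ψ _
  have := k (ψ + π)
  rw [cos_pi', ex_mul] at this
  linarith [k ψ]

lemma NZ.lm (hβ : 0 ≤ β) {χ : Ch} (h : NZ χ) (ψ : A) : lm β (fun θ => (χ θ - ψ).cos) = 0 := by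
  obtain ⟨j, d, hd, h⟩ := h
  have k : ∀ ψ, Pool.Agent.MP_b591f0_mp.lm β (fun θ => (χ θ - ψ).cos) ≤ 0 := fun ψ =>
    le_of_forall_pos_le_add fun ε hε => by
      obtain ⟨K, hK⟩ := mw hβ χ j hd h hε
      rw [zero_add]
      exact le_of_tendsto (tend β (by fun_prop)) ((ev_ge K).mono fun K' h => hK K' h ψ 0)
  have := k (ψ + π)
  rw [cos_pi', lm_mul _ (by fun_prop)] at this
  linarith [k ψ]

lemma lm_sin (χ : Ch) : lm β (fun θ => (χ θ).sin) = 0 := by
  refine tendsto_nhds_unique (tend β (by fun_prop)) (tendsto_const_nhds.congr fun K => ?_)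
  have h := av_hom (-AddMonoidHom.id Ω) continuous_neg neg_surjective
    (F := fun σ => (χ (pw (box K) σ 0)).sin * exp (Ham β (box K) (pw (box K) σ 0))) (by fun_prop)
  have e : ∀ σ, pw (box K) (-σ) 0 = -pw (box K) σ 0 := fun σ => by
    ext y; simp only [pw, Pi.neg_apply]; split_ifs <;> simp
  have e2 : ∀ θ, Ham β (box K) (-θ) = Ham β (box K) θ := fun θ =>
    sum_congr rfl fun b _ => by rw [Pi.neg_apply, Pi.neg_apply, ← neg_sub', Angle.cos_neg]
  simp only [AddMonoidHom.neg_apply, AddMonoidHom.id_apply, e, e2, map_neg, Angle.sin_neg,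
    neg_mul_eq_neg_mul, ← neg_one_mul (Angle.sin _), mul_assoc] at h
  rw [av_mul] at h
  rw [pl, gam, nu, eq_comm, div_eq_zero_iff]
  left; linarith

lemma lm_pos (hβ : 0 < β) {b : V × V} (hb : nn b) : 0 < lm β fun θ => ((ev b.1 - ev b.2) θ).cos := by
  obtain ⟨j, hj⟩ := exists_box b.1
  have ne : b.2 ≠ b.1 := by rcases hb with h | h <;> simp [h, Prod.ext_iff]
  refine lt_of_lt_of_le (show 0 < β * exp (-β) / 2 / exp β by positivity)
    (ge_of_tendsto (tend β (by fun_prop)) ((ev_ge j).mono fun K hK => ?_))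
  have h1 := box_mono hK hj
  have g := gin (Ed (box K)) (fun b => ev b.1 - ev b.2) (fun _ => 0)
    (fun c => if c = b then β else 0) (fun _ => β)
    (fun _ _ => by split_ifs <;> simp [abs_of_pos hβ, hβ.le]) (box K) 0 (ev b.1 - ev b.2) 0 0 0
    (fun θ => β * (θ b.1 - θ b.2).cos) (Ham β (box K))
    (by ext θ; simp [mem_Ed.2 ⟨hb, Or.inl h1⟩]) (by ext θ; simp [Ham])
  refine le_trans ?_ (show gam (box K) (fun θ => β * (θ b.1 - θ b.2).cos)
    (fun θ => (θ b.1 - θ b.2).cos) 0 ≤ _ by simpa [pl] using g)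
  have s := fun (a : A) => nu_shift (box K) 0 (Pi.single b.1 a)
    (fun x hx => by
      have : x ≠ b.1 := fun h => hx (by rw [h]; exact h1)
      simp [this])
  have e : ∀ (a : A) (θ : Ω), (θ + Pi.single b.1 a : Ω) b.1 - (θ + Pi.single b.1 a : Ω) b.2 =
      θ b.1 - θ b.2 + a := fun a θ => by simp [ne]; abel
  have s1 := s π fun θ => (θ b.1 - θ b.2).cos
  have s2 := s (π / 2 : ℝ) fun θ => (θ b.1 - θ b.2).cos ^ 2
  simp only [e, Angle.cos_add_pi, Angle.cos_add_pi_div_two, neg_sq,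
    ← neg_one_mul (Angle.cos _)] at s1 s2
  rw [nu_mul] at s1
  have s3 := nu_add (box K) 0 (F := fun θ => (θ b.1 - θ b.2).cos ^ 2)
    (K := fun θ => (θ b.1 - θ b.2).sin ^ 2) (by fun_prop) (by fun_prop)
  simp only [Angle.cos_sq_add_sin_sq, nu, av_const] at s3
  rw [le_gam _ _ (by fun_prop)]
  have z : nu (box K) (fun θ => exp (β * (θ b.1 - θ b.2).cos)) 0 ≤ exp β :=
    (nu_mono _ _ (by fun_prop) continuous_const fun θ => exp_le_exp.2
      (mul_le_of_le_one_right hβ.le (abs_le.1 (abs_cos_le _)).2)).trans_eq (av_const _)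
  have w := nu_mono (box K) 0
    (F := fun θ => (θ b.1 - θ b.2).cos + β * exp (-β) * (θ b.1 - θ b.2).cos ^ 2)
    (K := fun θ => (θ b.1 - θ b.2).cos * exp (β * (θ b.1 - θ b.2).cos)) (by fun_prop) (by fun_prop)
    fun θ => by
      have hy := abs_le.1 (abs_cos_le (θ b.1 - θ b.2))
      set y := (θ b.1 - θ b.2).cos
      have e1 : exp (-β) ≤ 1 := exp_le_one_iff.2 (by linarith)
      have e0 := exp_pos (-β)
      rcases le_total 0 y with h | h
      · have := mul_le_mul_of_nonneg_left (add_one_le_exp (β * y)) h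
        nlinarith [mul_nonneg hβ.le (sq_nonneg y)]
      · have e2 := exp_tan (β * y) 0
        have e3 : exp (-β) ≤ exp (β * y) := exp_le_exp.2 (by nlinarith)
        rw [exp_zero] at e2
        nlinarith [mul_nonneg hβ.le (sq_nonneg y), mul_le_mul_of_nonneg_left e2 (neg_nonneg.2 h)]
  rw [nu_add _ _ (by fun_prop) (by fun_prop), nu_mul] at w
  refine le_trans ?_ w
  calc _ ≤ β * exp (-β) / 2 / exp β * exp β := by gcongr
    _ = _ := by
      rw [div_mul_cancel₀ _ (exp_pos β).ne']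
      simp only [nu] at s1 s2 ⊢
      rw [show av (fun σ => (pw (box K) σ 0 b.1 - pw (box K) σ 0 b.2).cos ^ 2) = 1 / 2 by linarith]
      linarith

/-- a property of states and sites that holds at `o(n)` sites of the `n`-box -/
def Rare (β : ℝ) (p : Measure Ω → V → Prop) : Prop :=
  ∀ δ > 0, ∃ N, ∀ n ≥ N, ∀ ν, DLR β ν → (#((box n).filter (p ν)) : ℝ) ≤ δ * n

lemma Rare.mono {p q : Measure Ω → V → Prop} (hq : Rare β q)
    (h : ∀ ν x, DLR β ν → p ν x → q ν x) : Rare β p := fun δ hδ => by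
  obtain ⟨N, hN⟩ := hq δ hδ
  refine ⟨N, fun n hn ν hν => le_trans (Nat.cast_le.2 (card_le_card fun x hx => ?_)) (hN n hn ν hν)⟩
  exact mem_filter.2 ⟨(mem_filter.1 hx).1, h ν x hν (mem_filter.1 hx).2⟩

lemma Rare.or {p q : Measure Ω → V → Prop} (hp : Rare β p) (hq : Rare β q) :
    Rare β fun ν x => p ν x ∨ q ν x := fun δ hδ => by
  obtain ⟨N, hN⟩ := hp _ (half_pos hδ)
  obtain ⟨N', hN'⟩ := hq _ (half_pos hδ)
  refine ⟨max N N', fun n hn ν hν => ?_⟩
  have h1 := hN n (by omega) ν hν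
  have h2 := hN' n (by omega) ν hν
  refine le_trans (Nat.cast_le.2 ((card_le_card fun x hx => ?_).trans
    (card_union_le ((box n).filter (p ν)) ((box n).filter (q ν))))) (by push_cast; linarith)
  simpa [and_or_left] using hx

lemma rare_false (β : ℝ) : Rare β fun _ _ => False := fun δ hδ =>
  ⟨0, fun n _ ν _ => by simp; positivity⟩

/-- one-sided closeness for a character -/
def G1 (β : ℝ) (χ : Ch) : Prop := ∀ ε > 0, Rare β fun ν x =>
  ε < lm β (fun θ => (χ θ).cos) - ex ν x fun θ => (χ θ).cos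

lemma G1_bond (hβ : 0 < β) {b : V × V} (hb : nn b) : G1 β (ev b.1 - ev b.2) := fun ε hε δ hδ => by
  obtain ⟨j₁, h₁⟩ := exists_box b.1
  obtain ⟨j₂, h₂⟩ := exists_box b.2
  have h₁' := box_mono (le_max_left j₁ j₂) h₁
  have h₂' := box_mono (le_max_right j₁ j₂) h₂
  have hχ : ∀ (g : Ω) (a : A), (∀ x ∈ box (max j₁ j₂), g x = a) →
      (ev b.1 + ev b.2) g = (2 : ℤ) • a := fun g a h => by simp [h _ h₁', h _ h₂', two_zsmul]
  obtain ⟨K₀, hK₀⟩ := mw hβ.le _ _ two_ne_zero hχ (show 0 < ε / 8 by positivity)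
  obtain ⟨K, ⟨k1, k2⟩, k3⟩ := (((ev_ge K₀).and (ev_ge (max j₁ j₂))).and
    ((tend β (f := fun θ => ((ev b.1 - ev b.2) θ).cos) (by fun_prop)).eventually
      (lt_mem_nhds (sub_lt_self _ (show 0 < ε / 8 by positivity))))).exists
  obtain ⟨N, hN⟩ := fv hβ hb (box_mono k2 h₁') (box_mono k2 h₂') (show 0 < ε / 8 by positivity)
    (show 0 < δ * (ε / 4) by positivity)
  refine ⟨N, fun n hn ν hν => ?_⟩
  obtain ⟨Q, hQ⟩ := hN n hn
  have := hν.1
  set R := (box n).filter fun x => ε < lm β (fun θ => ((ev b.1 - ev b.2) θ).cos) -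
    ex ν x fun θ => ((ev b.1 - ev b.2) θ).cos
  have c := fun x => cint (cont_gam Q (cont_Ham β Q) (f := fun θ => ss b (tr x θ)) (by fun_prop)) ν
  have i := integral_mono (integrable_finsetSum _ fun x _ => (integrable_const _).sub (c x))
    (integrable_const _) (hQ R (filter_subset _ _))
  rw [integral_finsetSum _ fun x _ => (integrable_const _).sub (c x)] at i
  have e : ss b = fun θ => 1 / 2 * ((ev b.1 - ev b.2) θ).cos +
      -(1 / 2) * ((ev b.1 + ev b.2) θ - 0).cos := by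
    ext θ; simp [ss, cos_sub', Angle.cos_add]; ring
  have t : ∀ x ∈ R, ε / 4 ≤ ∫ η, gam (box K) (Ham β (box K)) (ss b) 0 - ε / 8 -
      gam Q (Ham β Q) (fun θ => ss b (tr x θ)) η ∂ν := fun x hx => by
    rw [integral_sub (integrable_const _) (c x), ← hν.2 Q _ (by fun_prop)]
    change _ ≤ _ - ex ν x (ss b)
    rw [e, ex_add hν x (by fun_prop) (by fun_prop), ex_mul, ex_mul,
      NZ.ex hβ.le ⟨_, 2, two_ne_zero, hχ⟩ hν, gam_add _ _ (cont_Ham _ _) (by fun_prop) (by fun_prop),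
      gam_mul, gam_mul]
    have := (mem_filter.1 hx).2
    have := hK₀ K k1 0 0
    simp only [pl] at k3
    simp only [integral_const, probReal_univ, one_smul]
    linarith
  have := (card_nsmul_le_sum _ _ _ t).trans i
  simp only [integral_const, probReal_univ, one_smul, nsmul_eq_mul] at this
  refine le_of_mul_le_mul_right (this.trans_eq (by ring)) (show 0 < ε / 4 by positivity)

lemma ex_le_lm (hβ : 0 ≤ β) (hν : DLR β ν) (x : V) (m : Ch) (ψ : A) :
    ex ν x (fun θ => (m θ - ψ).cos) ≤ lm β fun θ => (m θ).cos := by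
  have := key1 hβ hν x m 0 ψ 0
  linarith

lemma G1.step (hβ : 0 < β) {m n : Ch} (hm : G1 β m) (hn : G1 β n)
    (h0 : 0 < lm β fun θ => (n θ).cos) : G1 β (m + n) ∧ G1 β (m - n) := by
  set κ := lm β fun θ => (n θ).cos
  have e : (fun θ => (m θ).cos * (n θ).cos) =
      fun θ => 1 / 2 * ((m + n) θ).cos + 1 / 2 * ((m - n) θ).cos := by
    ext θ; simp [cos_sub', Angle.cos_add]; ring
  have main : ∀ ε > 0, Rare β fun ν x =>
      ε < (lm β (fun θ => ((m + n) θ).cos) - ex ν x fun θ => ((m + n) θ).cos) +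
        (lm β (fun θ => ((m - n) θ).cos) - ex ν x fun θ => ((m - n) θ).cos) := fun ε hε => by
    have a0 : 0 < κ * ε / 8 := by positivity
    refine ((hm _ (sq_pos_of_pos a0)).or (hn _ a0)).mono fun ν x hν h => ?_
    by_contra h'
    obtain ⟨h1, h2⟩ := not_or.1 h'
    have k := key1 hβ.le hν x m n 0 (-(κ * ε / 8))
    have k2 := ex_le_lm hβ.le hν x n 0
    have k3 := abs_le.1 (abs_lm_le (β := β) (f := fun θ => (m θ).cos * (n θ).cos) (by fun_prop)
      (c := 1) fun θ => by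
        rw [abs_mul]; exact mul_le_one₀ (abs_cos_le _) (abs_nonneg _) (abs_cos_le _))
    simp only [sub_zero] at k k2
    have k4 : ex ν x (fun θ => (m θ).cos * (n θ).cos) = 1 / 2 * ex ν x (fun θ => ((m + n) θ).cos) +
        1 / 2 * ex ν x fun θ => ((m - n) θ).cos := by
      rw [e, ex_add hν x (by fun_prop) (by fun_prop), ex_mul, ex_mul]
    have k5 : lm β (fun θ => (m θ).cos * (n θ).cos) = 1 / 2 * lm β (fun θ => ((m + n) θ).cos) +
        1 / 2 * lm β fun θ => ((m - n) θ).cos := by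
      rw [e, lm_add (by fun_prop) (by fun_prop), lm_mul _ (by fun_prop), lm_mul _ (by fun_prop)]
    set L := lm β fun θ => (m θ).cos * (n θ).cos
    set X := ex ν x fun θ => (m θ).cos * (n θ).cos
    set Cn := ex ν x fun θ => (n θ).cos
    have k6 : ε / 2 < L - X := by linarith
    have k7 : κ * ε / 2 - κ * ε / 8 < L * Cn - X * κ := by
      have : L * Cn - X * κ = κ * (L - X) - L * (κ - Cn) := by ring
      nlinarith [mul_lt_mul_of_pos_left k6 h0]
    nlinarith [mul_lt_mul_of_pos_left k7 a0]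
  constructor <;> refine fun ε hε => (main ε hε).mono fun ν x hν h => ?_
  · have := ex_le_lm hβ.le hν x (m - n) 0
    simp only [sub_zero] at this; linarith
  · have := ex_le_lm hβ.le hν x (m + n) 0
    simp only [sub_zero] at this; linarith

end Pool.Agent.MP_b591f0_mp
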