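import Pool.Agent.MP_b591f0_mp.Gin

/-! The sign cone and the lower bound for sine-sine correlations without boundary signs. -/

open MeasureTheory Set Real

namespace Pool.Agent.MP_b591f0_mp

abbrev X := V × Bool → A

/-- generators: sines and cosines of the coordinates -/
noncomputable def gen (p : (V × Bool) × Bool) (u : X) : ℝ :=
  if p.2 then (u p.1).cos else (u p.1).sin

/-- the flip that changes the sign of one generator -/
noncomputable def flp (p : (V × Bool) × Bool) (u : X) : X :=
  Function.update u p.1 ((if p.2 then (π : A) else 0) - u p.1)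

lemma gen_flp (p q : (V × Bool) × Bool) (u : X) :
    gen q (flp p u) = (if q = p then -1 else 1) * gen q u := by
  obtain ⟨j, b⟩ := p
  obtain ⟨k, c⟩ := q
  by_cases h : k = j
  · subst h
    cases b <;> cases c <;> simp [gen, flp, cos_sub', sin_sub', Angle.cos_coe_pi, Angle.sin_coe_pi]
  · simp [gen, flp, h]

lemma av_flp (p : (V × Bool) × Bool) {F : X → ℝ} (hF : Continuous F) :
    av (fun u => F (flp p u)) = av F := by
  let φ : X →+ X :=
    { toFun := fun u k => if k = p.1 then -u k else u k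
      map_zero' := by ext k; simp
      map_add' := fun a b => by ext k; simp only [Pi.add_apply]; split_ifs <;> abel }
  have hφ : Continuous φ := continuous_pi fun k => by
    change Continuous fun u : X => if k = p.1 then -u k else u k
    split_ifs <;> fun_prop
  let a : X := Pi.single p.1 (if p.2 then (π : A) else 0)
  have h1 := av_hom φ hφ (fun u => ⟨φ u, by ext k; by_cases h : k = p.1 <;> simp [φ, h]⟩)
    (F := fun u => F (u + a)) (by fun_prop)
  rw [← av_shift a F, ← h1]
  congr 1; ext u; congr 1; ext k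
  by_cases h : k = p.1
  · subst h; simp [flp, φ, a]; abel
  · simp [flp, φ, a, h]

variable (I : Set ((V × Bool) × Bool))

/-- monomials in the allowed generators times a nonnegative invariant function -/
def Mon (f : X → ℝ) : Prop := Continuous f ∧ ∃ (l : Multiset ((V × Bool) × Bool)) (ψ : X → ℝ),
  (∀ p ∈ l, p ∈ I) ∧ (∀ u, 0 ≤ ψ u) ∧ (∀ p ∈ I, ∀ u, ψ (flp p u) = ψ u) ∧
    ∀ u, f u = ψ u * (l.map fun p => gen p u).prod

/-- finite sums of monomials -/
def Cone (f : X → ℝ) : Prop := f ∈ AddSubmonoid.closure {f | Mon I f}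

variable {I} {f g : X → ℝ}

lemma prod_flp (l : Multiset ((V × Bool) × Bool)) (p : (V × Bool) × Bool) (u : X) :
    (l.map fun q => gen q (flp p u)).prod = (-1) ^ l.count p * (l.map fun q => gen q u).prod := by
  induction l using Multiset.induction_on with
  | empty => simp
  | cons q l ih =>
    rw [Multiset.map_cons, Multiset.prod_cons, ih, Multiset.map_cons, Multiset.prod_cons, gen_flp]
    by_cases h : q = p
    · subst h; rw [Multiset.count_cons_self, if_pos rfl]; ring
    · rw [Multiset.count_cons_of_ne (Ne.symm h), if_neg h]; ring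

lemma Mon.abs_flp (hf : Mon I f) {p} (hp : p ∈ I) (u : X) : |f (flp p u)| = |f u| := by
  obtain ⟨-, l, ψ, -, -, h2, h3⟩ := hf
  rw [h3, h3, h2 p hp, prod_flp]; simp [abs_mul]

lemma Mon.av (hf : Mon I f) : 0 ≤ av f := by
  obtain ⟨hc, l, ψ, h0, h1, h2, h3⟩ := hf
  by_cases h : ∀ p ∈ l, Even (l.count p)
  · refine av_nonneg fun u => ?_
    rw [h3, Finset.prod_multiset_map_count]
    exact mul_nonneg (h1 u) (Finset.prod_nonneg fun p hp =>
      (h p (Multiset.mem_toFinset.1 hp)).pow_nonneg _)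
  · push Not at h
    obtain ⟨p, hp, hodd⟩ := h
    have e := av_flp p hc
    have : ∀ u, f (flp p u) = -1 * f u := fun u => by
      rw [h3, h3, h2 p (h0 p hp), prod_flp, (Nat.not_even_iff_odd.1 hodd).neg_one_pow]; ring
    simp only [this] at e
    rw [av_mul] at e
    linarith

lemma Mon.mul (hf : Mon I f) (hg : Mon I g) : Mon I fun u => f u * g u := by
  obtain ⟨hc, l, ψ, h0, h1, h2, h3⟩ := hf
  obtain ⟨hc', l', ψ', h0', h1', h2', h3'⟩ := hg
  refine ⟨hc.mul hc', l + l', fun u => ψ u * ψ' u, fun p hp => ?_,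
    fun u => mul_nonneg (h1 u) (h1' u), fun p hp u => by simp only [h2 p hp, h2' p hp], fun u => ?_⟩
  · exact (Multiset.mem_add.1 hp).elim (h0 p) (h0' p)
  · simp only [h3, h3', Multiset.map_add, Multiset.prod_add]; ring

lemma Mon.inv (hc : Continuous f) (h1 : ∀ u, 0 ≤ f u) (h2 : ∀ p ∈ I, ∀ u, f (flp p u) = f u) :
    Mon I f := ⟨hc, 0, f, by simp, h1, h2, by simp⟩

lemma Mon.const {c : ℝ} (hc : 0 ≤ c) : Mon I fun _ => c :=
  Mon.inv continuous_const (fun _ => hc) fun _ _ _ => rfl

lemma Mon.gen {p} (hp : p ∈ I) : Mon I (gen p) :=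
  ⟨by unfold Pool.Agent.MP_b591f0_mp.gen; split_ifs <;> fun_prop, {p}, fun _ => 1,
    by simpa using hp, by simp, by simp, by simp⟩

lemma Mon.sinh (hf : Mon I f) : Mon I fun u => sinh (f u) := by
  have ha := fun p hp u => hf.abs_flp (p := p) hp u
  obtain ⟨hc, l, ψ, h0, h1, h2, h3⟩ := hf
  refine ⟨by fun_prop, l, fun u => Real.sinh |f u| / |f u| * ψ u, h0, fun u => ?_,
    fun p hp u => by simp only [ha p hp, h2 p hp], fun u => ?_⟩
  · exact mul_nonneg (div_nonneg (sinh_nonneg_iff.2 (abs_nonneg _)) (abs_nonneg _)) (h1 u)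
  · beta_reduce
    rw [mul_assoc, ← h3]
    rcases lt_trichotomy (f u) 0 with h | h | h
    · rw [abs_of_neg h, sinh_neg]; field_simp [h.ne]
    · simp [h]
    · rw [abs_of_pos h]; field_simp

lemma Mon.cone (hf : Mon I f) : Cone I f := AddSubmonoid.subset_closure hf

lemma Cone.add (hf : Cone I f) (hg : Cone I g) : Cone I fun u => f u + g u := add_mem hf hg

lemma Cone.mul (hf : Cone I f) (hg : Cone I g) : Cone I fun u => f u * g u := by
  induction hf using AddSubmonoid.closure_induction with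
  | mem f hf =>
    induction hg using AddSubmonoid.closure_induction with
    | mem g hg => exact (Mon.mul hf hg).cone
    | zero => simp only [Pi.zero_apply, mul_zero, zero_mul]; exact (zero_mem _ : Cone I 0)
    | add a b _ _ ha hb => simpa only [Pi.add_apply, mul_add] using ha.add hb
  | zero => simp only [Pi.zero_apply, mul_zero, zero_mul]; exact (zero_mem _ : Cone I 0)
  | add a b _ _ ha hb => simpa only [Pi.add_apply, add_mul] using ha.add hb

lemma Cone.av (hf : Cone I f) : Continuous f ∧ 0 ≤ av f := by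
  induction hf using AddSubmonoid.closure_induction with
  | mem f hf => exact ⟨hf.1, Mon.av hf⟩
  | zero => exact ⟨continuous_const, av_nonneg fun _ => le_rfl⟩
  | add a b _ _ ha hb =>
    exact ⟨ha.1.add hb.1, (add_nonneg ha.2 hb.2).trans_eq (av_add ha.1 hb.1).symm⟩

lemma Cone.prod {ι : Type*} (s : Finset ι) {F : ι → X → ℝ} (h : ∀ i ∈ s, Cone I (F i)) :
    Cone I fun u => ∏ i ∈ s, F i u := by
  classical
  induction s using Finset.induction_on with
  | empty => simpa using (Mon.const zero_le_one).cone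
  | insert i s hi ih =>
    simp only [Finset.prod_insert hi]
    exact (h i (Finset.mem_insert_self _ _)).mul (ih fun j hj => h j (Finset.mem_insert_of_mem hj))

lemma Mon.exp (hf : Mon I f) : Cone I fun u => exp (f u) := by
  have hc := hf.1
  have := (Mon.inv (I := I) (f := fun u => cosh (f u)) (by fun_prop) (fun u => (cosh_pos _).le)
    fun p hp u => by rw [← cosh_abs, hf.abs_flp hp, cosh_abs]).cone.add hf.sinh.cone
  simpa only [cosh_add_sinh] using this

lemma Mon.opn (hf : Mon I f) : Cone I fun u => Real.exp (f u) - Real.exp (-|f u|) := by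
  have hc := hf.1
  have := (Mon.inv (I := I) (f := fun u => Real.sinh |f u|) (by fun_prop)
    (fun u => sinh_nonneg_iff.2 (abs_nonneg _))
    fun p hp u => by rw [hf.abs_flp hp]).cone.add hf.sinh.cone
  convert this using 2 with u
  rw [← cosh_add_sinh, ← cosh_sub_sinh, cosh_abs]; ring

/-- sine-sine and cosine-cosine products along an edge -/
noncomputable def ss (b : V × V) (θ : Ω) : ℝ := (θ b.1).sin * (θ b.2).sin
noncomputable def cc (b : V × V) (θ : Ω) : ℝ := (θ b.1).cos * (θ b.2).cos

@[fun_prop] lemma cont_ss (b : V × V) : Continuous (ss b) := by unfold ss; fun_prop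
@[fun_prop] lemma cont_cc (b : V × V) : Continuous (cc b) := by unfold cc; fun_prop

lemma abs_ss_le (b : V × V) (θ : Ω) : |ss b θ| ≤ 1 := by
  rw [ss, abs_mul]; exact mul_le_one₀ (abs_sin_le _) (abs_nonneg _) (abs_sin_le _)

/-- weights of a closed and of an open edge -/
noncomputable def qq (β : ℝ) (b : V × V) (θ : Ω) : ℝ := exp (-|β * ss b θ|)
noncomputable def pp (β : ℝ) (b : V × V) (θ : Ω) : ℝ := exp (β * ss b θ) - qq β b θ

@[fun_prop] lemma cont_qq (β : ℝ) (b : V × V) : Continuous (qq β b) := by unfold qq; fun_prop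
@[fun_prop] lemma cont_pp (β : ℝ) (b : V × V) : Continuous (pp β b) := by unfold pp; fun_prop

lemma qq_pos (β : ℝ) (b : V × V) (θ : Ω) : 0 < qq β b θ := exp_pos _

lemma pp_nonneg (β : ℝ) (b : V × V) (θ : Ω) : 0 ≤ pp β b θ :=
  sub_nonneg.2 (exp_le_exp.2 (neg_abs_le _))

lemma half_pos_or_zero {a : ℝ} (h : 0 ≤ a) : 0 ≤ a / 2 := by positivity

lemma sign_ineq {Q B U : Finset V} (hB : B ⊆ U) (hU : U ⊆ Q) (η : Ω)
    (E Ein ω Cl : Finset (V × V)) {β : ℝ} (hβ : 0 ≤ β) (J : V × V → ℝ) (hJ : ∀ b ∈ Ein, 0 ≤ J b)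
    (hω : ∀ b ∈ ω, b.1 ∉ B ∧ b.2 ∉ B ∧ (b.1 ∈ U ↔ b.2 ∈ U))
    (hCl : ∀ b ∈ Cl, b.1 ∉ B ∧ b.2 ∉ B) (hEin : ∀ b ∈ Ein, b.1 ∈ U ∧ b.2 ∈ U)
    (b₀ : V × V) (h₀ : b₀.1 ∈ U ∧ b₀.2 ∈ U) (H : Ω → ℝ)
    (hH : H = fun θ => ∑ b ∈ E, β * cc b θ + ∑ b ∈ Ein, J b * ss b θ) (W : Ω → ℝ)
    (hW : W = fun θ => exp (H θ) * ((∏ b ∈ ω, pp β b θ) * ∏ b ∈ Cl, qq β b θ)) :
    gam B H (ss b₀) 0 * nu Q W η ≤ nu Q (fun θ => ss b₀ θ * W θ) η := by
  have cH : Continuous H := by rw [hH]; fun_prop
  have cW : Continuous W := by rw [hW]; fun_prop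
  let φ : X →+ Ω × Ω :=
    { toFun := fun u => (fun x => if x ∈ B then u (x, false) + u (x, true) else u (x, false),
        fun x => if x ∈ B then u (x, false) - u (x, true) else u (x, true))
      map_zero' := by ext x <;> simp
      map_add' := fun a b => by
        ext x <;> simp only [Pi.add_apply, Prod.fst_add, Prod.snd_add] <;> split_ifs <;> abel }
  have hφ : Continuous φ := by
    refine Continuous.prodMk (continuous_pi fun x => ?_) (continuous_pi fun x => ?_) <;>
      split_ifs <;> fun_prop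
  have hs : Function.Surjective φ := fun z => by
    obtain ⟨y, hy⟩ := uv_surj z
    refine ⟨fun j => if j.1 ∈ B then (if j.2 then y.2 j.1 else y.1 j.1) else
      (if j.2 then z.2 j.1 else z.1 j.1), ?_⟩
    ext x <;> by_cases h : x ∈ B <;> simp [φ, h] <;> simp [← hy, uv]
  let t : X → Ω := fun u => pw Q (φ u).1 η
  let t' : X → Ω := fun u => pw B (φ u).2 0
  have ct : Continuous t := by fun_prop
  have ct' : Continuous t' := by fun_prop
  let I : Set ((V × Bool) × Bool) := {p | p.1.1 ∈ B ∨ (p.1.1 ∈ U ∧ p.1.2 = false ∧ p.2 = false)}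
  have tB : ∀ x ∈ B, ∀ u, t u x = u (x, false) + u (x, true) ∧
      t' u x = u (x, false) - u (x, true) := fun x hx u => by
    simp [t, t', φ, pw, hx, hU (hB hx)]
  have tN : ∀ x ∉ B, ∀ u, t' u x = 0 := fun x hx u => by simp [t', pw, hx]
  have tU : ∀ x ∉ B, x ∈ U → ∀ u, t u x = u (x, false) := fun x hx hx' u => by
    simp [t, φ, pw, hx, hU hx']
  have tF : ∀ x ∉ B, ∀ p ∈ I, ∀ u, t (flp p u) x = t u x ∨ (x ∈ U ∧ t (flp p u) x = -t u x) := by
    intro x hx p hp u
    by_cases hQ : x ∈ Q
    · by_cases e : (x, false) = p.1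
      · obtain ⟨j, c⟩ := p
        subst e
        rcases hp with hp | ⟨h1, -, h2⟩
        · exact absurd hp hx
        · obtain rfl : c = false := h2
          exact Or.inr ⟨h1, by simp [t, φ, pw, hx, hQ, flp]⟩
      · left; simp [t, φ, pw, hx, hQ, flp, Function.update_of_ne e]
    · left; simp [t, pw, hQ]
  have tC : ∀ x ∉ B, ∀ p ∈ I, ∀ u, (t (flp p u) x).cos = (t u x).cos := fun x hx p hp u => by
    rcases tF x hx p hp u with h | ⟨-, h⟩ <;> simp [h]
  have tS : ∀ x ∉ B, ∀ p ∈ I, ∀ u, |(t (flp p u) x).sin| = |(t u x).sin| := fun x hx p hp u => by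
    rcases tF x hx p hp u with h | ⟨-, h⟩ <;> simp [h]
  have G : ∀ x ∈ B, ∀ a b c d : Bool, Mon I fun u => 2 * (gen ((x, a), b) u * gen ((x, c), d) u) :=
    fun x hx a b c d => (Mon.const zero_le_two).mul
      ((Mon.gen (Or.inl hx)).mul (Mon.gen (Or.inl hx)))
  have S0 : ∀ x ∉ B, x ∈ U → Mon I fun u => (t u x).sin := fun x hx hx' => by
    simp only [tU x hx hx']
    exact Mon.gen (p := ((x, false), false)) (Or.inr ⟨hx', rfl, rfl⟩)
  have S : ∀ x ∈ U, (Mon I fun u => (t u x).sin + (t' u x).sin) ∧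
      Mon I fun u => (t u x).sin - (t' u x).sin := fun x hx => by
    by_cases h : x ∈ B
    · constructor
      · convert G x h false false true true using 2 with u
        simp [tB x h u, gen, sin_sub', Angle.sin_add]; ring
      · convert G x h false true true false using 2 with u
        simp [tB x h u, gen, sin_sub', Angle.sin_add]; ring
    · simpa [tN x h] using S0 x h hx
  have C : ∀ x, (Mon I fun u => (t' u x).cos + (t u x).cos) ∧
      Mon I fun u => (t' u x).cos - (t u x).cos := fun x => by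
    by_cases h : x ∈ B
    · constructor
      · convert G x h false true true true using 2 with u
        simp [tB x h u, gen, cos_sub', Angle.cos_add]; ring
      · convert G x h false false true false using 2 with u
        simp [tB x h u, gen, cos_sub', Angle.cos_add]; ring
    · simp only [tN x h, Angle.cos_zero]
      constructor <;> refine Mon.inv (by fun_prop) (fun u => ?_) fun p hp u => by rw [tC x h p hp]
      · linarith [(abs_le.1 (abs_cos_le (t u x))).1]
      · linarith [(abs_le.1 (abs_cos_le (t u x))).2]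
  have k0 : Cone I fun u => ss b₀ (t u) - ss b₀ (t' u) := by
    have := (Mon.const (I := I) (c := 1 / 2) (by norm_num)).cone.mul
      (((S _ h₀.1).1.mul (S _ h₀.2).2).cone.add ((S _ h₀.1).2.mul (S _ h₀.2).1).cone)
    convert this using 2 with u
    simp only [ss]; ring
  have k1 : Cone I fun u => ∏ b ∈ E, exp (β * cc b (t u) + β * cc b (t' u)) :=
    Cone.prod _ fun b _ => by
      have := ((Mon.const (half_pos_or_zero hβ)).mul ((C b.1).1.mul (C b.2).1)).exp.mul
        ((Mon.const (half_pos_or_zero hβ)).mul ((C b.1).2.mul (C b.2).2)).exp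
      convert this using 2 with u
      rw [← exp_add]; congr 1; simp only [cc]; ring
  have k2 : Cone I fun u => ∏ b ∈ Ein, exp (J b * ss b (t u) + J b * ss b (t' u)) :=
    Cone.prod _ fun b hb => by
      have := ((Mon.const (half_pos_or_zero (hJ b hb))).mul
        ((S _ (hEin b hb).1).1.mul (S _ (hEin b hb).2).1)).exp.mul
        ((Mon.const (half_pos_or_zero (hJ b hb))).mul
          ((S _ (hEin b hb).1).2.mul (S _ (hEin b hb).2).2)).exp
      convert this using 2 with u
      rw [← exp_add]; congr 1; simp only [ss]; ring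
  have k3 : Cone I fun u => ∏ b ∈ ω, pp β b (t u) := Cone.prod _ fun b hb => by
    obtain ⟨h1, h2, h3⟩ := hω b hb
    by_cases h : b.1 ∈ U
    · exact ((Mon.const hβ).mul ((S0 _ h1 h).mul (S0 _ h2 (h3.1 h)))).opn
    · refine (Mon.inv (by fun_prop) (fun u => pp_nonneg _ _ _) fun p hp u => ?_).cone
      have e1 := (tF _ h1 p hp u).resolve_right fun e => h e.1
      have e2 := (tF _ h2 p hp u).resolve_right fun e => h (h3.2 e.1)
      simp only [pp, qq, ss, e1, e2]
  have k4 : Cone I fun u => ∏ b ∈ Cl, qq β b (t u) := Cone.prod _ fun b hb =>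
    (Mon.inv (by fun_prop) (fun u => (qq_pos _ _ _).le) fun p hp u => by
      simp only [qq, ss, abs_mul, tS _ (hCl b hb).1 p hp, tS _ (hCl b hb).2 p hp]).cone
  have k := (k0.mul ((k1.mul k2).mul (k3.mul k4))).av.2
  have e : av (fun z : Ω × Ω => (ss b₀ (pw Q z.1 η) * W (pw Q z.1 η)) * exp (H (pw B z.2 0)) -
      W (pw Q z.1 η) * (ss b₀ (pw B z.2 0) * exp (H (pw B z.2 0)))) =
      nu Q (fun θ => ss b₀ θ * W θ) η * nu B (fun θ => exp (H θ)) 0 -
        nu Q W η * nu B (fun θ => ss b₀ θ * exp (H θ)) 0 := by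
    rw [av_sub (by fun_prop) (by fun_prop)]
    simp only [nu, ← av_prod_mul]
  rw [← av_hom φ hφ hs (by fun_prop)] at e
  have e' := k.trans_eq (Eq.trans (by
    congr 1; ext u
    change _ = (ss b₀ (t u) * W (t u)) * exp (H (t' u)) - W (t u) * (ss b₀ (t' u) * exp (H (t' u)))
    simp only [hW, hH, exp_sum, Finset.prod_mul_distrib, exp_add]; ring) e)
  rw [gam, div_mul_eq_mul_div, div_le_iff₀ (nu_pos B 0 cH)]
  linarith

end Pool.Agent.MP_b591f0_mp
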